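import Pool.Agent.P.MP_6277db_ag.KEW.Eff.Sq
import Pool.Agent.P.MP_6277db_ag.KEW.L9.VAN

/-!
KEW, effectivity: cycles on cartesian families, push forward, excision, contractions.
-/

set_option backward.isDefEq.respectTransparency false

noncomputable section

open CategoryTheory Limits AlgebraicGeometry Opposite TensorProduct Function

namespace Pool.Agent.KEW

variable {C : Type 1} [Category.{0} C] {u : C ⥤ Scheme.{0}} (L : Type 1) [CommRing L] (m : ℕ)

section alg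

variable {A B : Type} [AddCommGroup A] [AddCommGroup B]

/-- The image of `L ⊗ N` in `L ⊗ A`. -/
def tsub (N : AddSubgroup A) : Submodule L (ModuleCat.of L (L ⊗[ℤ] A)) :=
  LinearMap.range (ext1 L N.subtype).hom

variable {L}

theorem tsub_le {N : AddSubgroup A} {P : Submodule L (ModuleCat.of L (L ⊗[ℤ] A))}
    (h : ∀ a ∈ N, (1 : L) ⊗ₜ[ℤ] a ∈ P) : tsub L N ≤ P := by
  rintro _ ⟨x, rfl⟩
  induction x using TensorProduct.induction_on with
  | zero => rw [map_zero]; exact zero_mem _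
  | tmul l a =>
    have := P.smul_mem l (h a.1 a.2)
    rwa [smul_tmul', smul_eq_mul, mul_one] at this
  | add x y hx hy => rw [map_add]; exact add_mem hx hy

theorem tmul_mem_tsub {N : AddSubgroup A} (l : L) {a : A} (h : a ∈ N) : l ⊗ₜ[ℤ] a ∈ tsub L N :=
  ⟨l ⊗ₜ[ℤ] (⟨a, h⟩ : N), rfl⟩

theorem map_mem_tsub {N : AddSubgroup A} {N' : AddSubgroup B} (f : A →+ B)
    (h : ∀ a ∈ N, f a ∈ N') {x : ModuleCat.of L (L ⊗[ℤ] A)} (hx : x ∈ tsub L N) :
    (ext1 L f).hom x ∈ tsub L N' :=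
  tsub_le (P := (tsub L N').comap (ext1 L f).hom) (fun a ha => tmul_mem_tsub 1 (h a ha)) hx

theorem mem_tsub_top {N : AddSubgroup A} (h : ∀ a, a ∈ N) (x : ModuleCat.of L (L ⊗[ℤ] A)) :
    x ∈ tsub L N := by
  induction x using TensorProduct.induction_on with
  | zero => exact zero_mem _
  | tmul l a => exact tmul_mem_tsub l (h a)
  | add x y hx hy => exact add_mem hx hy

theorem mem_tsub_iff {N : AddSubgroup A} {x : ModuleCat.of L (L ⊗[ℤ] A)} :
    x ∈ tsub L N ↔ (ext1 L (QuotientAddGroup.mk' N)).hom x = 0 := by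
  have h1 : Function.Exact N.subtype.toIntLinearMap (QuotientAddGroup.mk' N).toIntLinearMap :=
    fun b => (QuotientAddGroup.eq_zero_iff b).trans ⟨fun h => ⟨⟨b, h⟩, rfl⟩, fun ⟨c, h⟩ => h ▸ c.2⟩
  exact (lTensor_exact L h1 (QuotientAddGroup.mk'_surjective _) x).symm

end alg

namespace CFam

variable (F F' : CFam u)

/-- The presheaf of cycles with coefficients in `L`. -/
def cy : PSh C L where
  obj c := ModuleCat.of L (L ⊗[ℤ] Cyc m (F.p.app c.unop))
  map φ := ext1 L (Cyc.pull m (F.pb φ.unop))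
  map_id c := ext1_id fun z => Subtype.ext (by
    change z.1 ∘ F.X.map (𝟙 _) = z.1
    rw [F.X.map_id]
    rfl)
  map_comp φ ψ := ext1_comp fun z => Subtype.ext (by
    change z.1 ∘ F.X.map (ψ.unop ≫ φ.unop) = _
    rw [F.X.map_comp]
    rfl)

variable {F}

/-- The cycles whose closed support misses `T`. -/
def off (T : F.Sets) : SubP (F.cy L m) where
  N c := tsub L (CycOff m (F.p.app c) (T.T c))
  res φ _ h := map_mem_tsub _ (fun _ ha => CycOff.pull_mem m (F.pb φ) (T.maps φ) ha) h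

variable (F) in
/-- A morphism of families. -/
structure Hom where
  /-- the maps -/
  q : ∀ c, F'.X.obj c ⟶ F.X.obj c
  nat : ∀ {c' c : C} (φ : c' ⟶ c), q c' ≫ F.X.map φ = F'.X.map φ ≫ q c
  w : ∀ c, q c ≫ F.p.app c = F'.p.app c

variable {F'}

/-- Push forward of cycles. -/
def Hom.push (φ : F.Hom F') : F'.cy L m ⟶ F.cy L m where
  app c := ext1 L (Cyc.pushHom m (φ.q c.unop) (φ.w c.unop))
  naturality c c' f := (ext1_comp (k := (Cyc.pushHom m (φ.q c'.unop) (φ.w c'.unop)).comp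
    (Cyc.pull m (F'.pb f.unop))) fun _ => rfl).symm.trans (ext1_comp fun z =>
      (Cyc.pull_pushHom _ _ (F'.pb f.unop) (F.pb f.unop) _ (φ.w _) (φ.nat f.unop) z).symm)

variable {L m}

theorem Hom.isPullback (φ : F.Hom F') {c' c : C} (f : c' ⟶ c) :
    IsPullback (F'.X.map f) (φ.q c') (φ.q c) (F.X.map f) :=
  IsPullback.of_bot (by rw [φ.w, φ.w]; exact F'.pb f) (φ.nat f).symm (F.pb f)

theorem off_mono {T T' : F.Sets} (h : ∀ c, T.T c ⊆ T'.T c) : (off L m T').Le (off L m T) :=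
  fun c _ hx => tsub_le (fun _ ha => tmul_mem_tsub 1 (Cyc.cycOff_anti (h c) ha)) hx

theorem mem_off_of_empty {T : F.Sets} {c : C} (h : T.T c = ∅) (x : (F.cy L m).obj (op c)) :
    x ∈ (off L m T).N c :=
  mem_tsub_top (fun a => by
    change Disjoint _ (T.T c)
    rw [h]
    exact Set.disjoint_empty _) x

theorem eq_zero_of_mem_off {T : F.Sets} {c : C} (h : T.T c = Set.univ)
    {x : (F.cy L m).obj (op c)} (hx : x ∈ (off L m T).N c) : x = 0 := by
  refine (Submodule.mem_bot L).1 (tsub_le (fun a ha => ?_) hx)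
  have h1 : Disjoint (closure (support a.1)) (T.T c) := ha
  rw [h, Set.disjoint_univ, closure_empty_iff, support_eq_empty_iff] at h1
  rw [show a = 0 from Subtype.ext h1, tmul_zero]
  exact zero_mem _

theorem Hom.push_off (φ : F.Hom F') {T : F.Sets} {T' : F'.Sets}
    (h : ∀ c, φ.q c ⁻¹' T.T c ⊆ T'.T c) :
    (off L m T').Le (SubP.comap (φ.push L m) (off L m T)) :=
  fun c _ hx => map_mem_tsub _ (fun _ ha => Cyc.pushHom_mem_cycOff _ (φ.w c) (h c) ha) hx

theorem Hom.push_mem_off (φ : F.Hom F') {T : F.Sets} {c : C} (h : φ.q c ⁻¹' T.T c = ∅)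
    (x : (F'.cy L m).obj (op c)) : (φ.push L m).app (op c) x ∈ (off L m T).N c :=
  map_mem_tsub (N := ⊤) _ (fun a _ => Cyc.pushHom_mem_cycOff (T := ∅) _ (φ.w c) h.le
    (Set.disjoint_empty _)) (mem_tsub_top (N := ⊤) (fun _ => trivial) x)

theorem Hom.push_comp {F'' : CFam u} (φ : F.Hom F') (ψ : F'.Hom F'') (χ : F.Hom F'')
    (h : ∀ c, ψ.q c ≫ φ.q c = χ.q c) : ψ.push L m ≫ φ.push L m = χ.push L m := by
  ext c : 2
  exact (ext1_comp fun z => ((Cyc.pushHom_pushHom _ (ψ.w _) _ (φ.w _) z).trans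
    (Corr.Corr_pushHom_congr _ (χ.w _) (h c.unop) z)).symm).symm

theorem FamA_inj {A : Type} [AddCommGroup A] {N₁ N₂ : AddSubgroup A} (h : N₂ ≤ N₁)
    (ht : ∀ (n : ℕ) (a : A), n ≠ 0 → n • a ∈ N₁ → a ∈ N₁) (y : L ⊗[ℤ] N₁)
    (hy : (ext1 L N₁.subtype).hom y ∈ tsub L N₂) :
    (ext1 L (QuotientAddGroup.mk' (N₂.addSubgroupOf N₁))).hom y = 0 := by
  let j : N₁ ⧸ N₂.addSubgroupOf N₁ →+ A ⧸ N₂ := QuotientAddGroup.map _ _ N₁.subtype le_rfl
  let k : A ⧸ N₂ →+ A ⧸ N₁ := QuotientAddGroup.map _ _ (AddMonoidHom.id A) h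
  have : IsAddTorsionFree (A ⧸ N₁) := ⟨fun n hn a b hab => by
    obtain ⟨a, rfl⟩ := QuotientAddGroup.mk_surjective a
    obtain ⟨b, rfl⟩ := QuotientAddGroup.mk_surjective b
    have e : ((n • a : A) : A ⧸ N₁) = (n • b : A) := hab
    rw [QuotientAddGroup.eq] at e ⊢
    exact ht n _ hn (by rwa [smul_add, smul_neg])⟩
  have hk : Surjective k.toIntLinearMap := fun a => by
    obtain ⟨a, rfl⟩ := QuotientAddGroup.mk_surjective a
    exact ⟨QuotientAddGroup.mk a, rfl⟩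
  have hj : Injective j.toIntLinearMap := (injective_iff_map_eq_zero _).2 fun a ha => by
    obtain ⟨a, rfl⟩ := QuotientAddGroup.mk_surjective a
    exact (QuotientAddGroup.eq_zero_iff a).2 ((QuotientAddGroup.eq_zero_iff a.1).1 ha)
  have he : Function.Exact j.toIntLinearMap k.toIntLinearMap := fun a => by
    obtain ⟨a, rfl⟩ := QuotientAddGroup.mk_surjective a
    refine ⟨fun ha => ⟨QuotientAddGroup.mk ⟨a, (QuotientAddGroup.eq_zero_iff a).1 ha⟩, rfl⟩, ?_⟩
    rintro ⟨b, hb⟩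
    obtain ⟨b, rfl⟩ := QuotientAddGroup.mk_surjective b
    rw [← hb]
    exact (QuotientAddGroup.eq_zero_iff b.1).2 b.2
  refine (injective_iff_map_eq_zero _).1
    (LinearMap.lTensor_injective_of_exact_of_flat _ hk _ hj he L) _ ?_
  exact (TrLB_sq L (f := QuotientAddGroup.mk' (N₂.addSubgroupOf N₁)) (g := j) (f' := N₁.subtype)
    (g' := QuotientAddGroup.mk' N₂) (fun _ => rfl) y).trans (mem_tsub_iff.1 hy)

theorem FamA_coef {G G' : Cᵒᵖ ⥤ AddCommGrpCat.{0}} {ψ : G ⟶ G'} (h : LocInjA u ψ)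
    (h' : LocSurjA u ψ) (c : C) (x : L ⊗[ℤ] G.obj (op c))
    (hx : (ext1 L (ψ.app (op c)).hom).hom x = 0) (w : u.obj c) :
    Locally u c w fun _ f => (ext1 L (G.map f.op).hom).hom x = 0 :=
  LocInjA.coef L h h' c x hx w

variable (m) in
/-- Cycles modulo the cycles whose closed support misses `T`. -/
def FamA_Q (T : F.Sets) : Cᵒᵖ ⥤ AddCommGrpCat.{0} where
  obj c := AddCommGrpCat.of (Cyc m (F.p.app c.unop) ⧸ CycOff m _ (T.T c.unop))
  map φ := AddCommGrpCat.ofHom (QuotientAddGroup.map _ _ (Cyc.pull m (F.pb φ.unop))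
    fun _ hc => CycOff.pull_mem m (F.pb φ.unop) (T.maps φ.unop) hc)
  map_id c := by
    ext z
    refine congrArg QuotientAddGroup.mk (Subtype.ext ?_)
    change z.1 ∘ F.X.map (𝟙 _) = z.1
    rw [F.X.map_id]
    rfl
  map_comp φ ψ := by
    ext z
    refine congrArg QuotientAddGroup.mk (Subtype.ext ?_)
    change z.1 ∘ F.X.map (ψ.unop ≫ φ.unop) = _
    rw [F.X.map_comp]
    rfl

variable (m) in
/-- Push forward with values in the cycles whose closed support misses `T₁`. -/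
def FamA_r (φ : F.Hom F') {T₁ : F.Sets} (hr : ∀ c, φ.q c ⁻¹' T₁.T c = ∅) (c : C) :
    Cyc m (F'.p.app c) →+ CycOff m (F.p.app c) (T₁.T c) :=
  (Cyc.pushHom m (φ.q c) (φ.w c)).codRestrict _ fun _ =>
    Cyc.pushHom_mem_cycOff (T := ∅) _ (φ.w c) (hr c).le (Set.disjoint_empty _)

variable (m) in
/-- The induced map of quotients. -/
def FamA_phi (φ : F.Hom F') {T₁ T₂ : F.Sets} {T' : F'.Sets} (hr : ∀ c, φ.q c ⁻¹' T₁.T c = ∅)
    (hm : ∀ c, φ.q c ⁻¹' T₂.T c ⊆ T'.T c) : FamA_Q m T' ⟶ F.cyc m T₁ T₂ where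
  app c := AddCommGrpCat.ofHom (QuotientAddGroup.map _ _ (FamA_r m φ hr c.unop)
    fun _ hd => Cyc.pushHom_mem_cycOff _ (φ.w c.unop) (hm c.unop) hd)
  naturality c c' f := by
    ext z
    obtain ⟨z, rfl⟩ := QuotientAddGroup.mk_surjective z
    exact congrArg QuotientAddGroup.mk (Subtype.ext
      (Cyc.pull_pushHom _ (φ.w _) (F'.pb f.unop) (F.pb f.unop) _ (φ.w _) (φ.nat f.unop) z).symm)

/-- Passage from integral cycles to cycles with coefficients. Hint: the map of presheaves of abelian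
groups `Cyc' / Off T' ⟶ CycPair T₁ T₂` (`F'.cyc m ∅ T'`, `F.cyc m T₁ T₂`) is `LocInjA` and
`LocSurjA`; use `LocInjA.coef`; the map `L ⊗ CycPair T₁ T₂ → L ⊗ (Cyc / Off T₂)` is injective
because its cokernel `Cyc / Off T₁` is flat (`LinearMap.lTensor_injective_of_exact_of_flat`);
`mem_tsub_iff`. For the first half use `tsub_le` with `P = ((imAdd ..).loc u).N c`. -/
theorem Hom.loc_of_int (φ : F.Hom F') {T₁ T₂ : F.Sets} {T' : F'.Sets} (h₁₂ : ∀ c, T₁.T c ⊆ T₂.T c)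
    (hr : ∀ c, φ.q c ⁻¹' T₁.T c = ∅) (hm : ∀ c, φ.q c ⁻¹' T₂.T c ⊆ T'.T c)
    (hs : ∀ (c : C) (z : Cyc m (F.p.app c)), z ∈ CycOff m _ (T₁.T c) → ∀ w : u.obj c,
      Locally u c w fun V f => ∃ d : Cyc m (F'.p.app V),
        Cyc.pull m (F.pb f) z - Cyc.pushHom m (φ.q V) (φ.w V) d ∈ CycOff m _ (T₂.T V))
    (hi : ∀ (c : C) (d : Cyc m (F'.p.app c)),
      Cyc.pushHom m (φ.q c) (φ.w c) d ∈ CycOff m _ (T₂.T c) → ∀ w : u.obj c,
      Locally u c w fun V f => Cyc.pull m (F'.pb f) d ∈ CycOff m _ (T'.T V)) :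
    (off L m T₁).Le ((SubP.imAdd (φ.push L m) (SubP.top _) (off L m T₂)).loc u) ∧
      (SubP.comap (φ.push L m) (off L m T₂)).Le ((off L m T').loc u) := by
  constructor
  · refine fun c x hx => tsub_le (P := ((SubP.imAdd (φ.push L m) (SubP.top _)
      (off L m T₂)).loc u).N c) (fun z hz V f v => ?_) hx
    refine (hs V _ (CycOff.pull_mem m (F.pb f) (T₁.maps f) hz) v).mono ?_
    rintro V' g ⟨d, hd⟩
    refine SubP.mem_imAdd.2 ⟨((1 : L) ⊗ₜ[ℤ] d : L ⊗[ℤ] Cyc m (F'.p.app V')), trivial, ?_⟩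
    have e := tmul_mem_tsub (1 : L) hd
    rw [tmul_sub] at e
    rw [Site_res]
    exact e
  · have h1 : LocSurjA u (FamA_phi m φ hr hm) := fun c b w => by
      obtain ⟨z, rfl⟩ := QuotientAddGroup.mk_surjective b
      refine (hs c z.1 z.2 w).mono ?_
      rintro V f ⟨d, hd⟩
      refine ⟨QuotientAddGroup.mk d, QuotientAddGroup.eq.2 ?_⟩
      change -Cyc.pushHom m (φ.q V) (φ.w V) d + Cyc.pull m (F.pb f) z.1 ∈ CycOff m _ (T₂.T V)
      rwa [neg_add_eq_sub]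
    have h2 : LocInjA u (FamA_phi m φ hr hm) := fun c a ha w => by
      obtain ⟨d, rfl⟩ := QuotientAddGroup.mk_surjective a
      refine (hi c d ((QuotientAddGroup.eq_zero_iff (FamA_r m φ hr c d)).1 ha) w).mono ?_
      exact fun V f h => (QuotientAddGroup.eq_zero_iff (Cyc.pull m (F'.pb f) d)).2 h
    refine SubP.le_loc_of_locally fun c x hx w => ?_
    have h3 := FamA_inj (Cyc.cycOff_anti (h₁₂ c))
      (fun n a hn ha => (Cyc.nsmul_mem_cycOff_iff hn a).1 ha) ((ext1 L (FamA_r m φ hr c)).hom x)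
      (by
        rw [← ModuleCat.comp_apply,
          ← ext1_comp (k := Cyc.pushHom m (φ.q c) (φ.w c)) fun _ => rfl]
        exact hx)
    have h4 := (TrLB_sq L (f := QuotientAddGroup.mk' (CycOff m _ (T'.T c)))
      (g := ((FamA_phi m φ hr hm).app (op c)).hom) (f' := FamA_r m φ hr c)
      (g' := QuotientAddGroup.mk' ((CycOff m _ (T₂.T c)).addSubgroupOf (CycOff m _ (T₁.T c))))
      (fun _ => rfl) x).trans h3
    refine (FamA_coef h2 h1 c _ h4 w).mono fun V f h => mem_tsub_iff.2 ?_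
    exact (TrLB_sq L (f := Cyc.pull m (F'.pb f)) (g := QuotientAddGroup.mk' (CycOff m _ (T'.T V)))
      (f' := QuotientAddGroup.mk' (CycOff m _ (T'.T c))) (g' := ((FamA_Q m T').map f.op).hom)
      (fun _ => rfl) x).trans h

theorem Hom.FamB_sep (φ : F.Hom F') (c : C) : IsSeparated (φ.q c) := by
  have : IsSeparated (φ.q c ≫ F.p.app c) := by
    rw [φ.w]
    infer_instance
  exact IsSeparated.of_comp (φ.q c) (F.p.app c)

/-- Etale excision. Hint: `loc_of_int` with `T₁ = ∅`, `Cyc.exists_exc_surj`, `Cyc.exists_exc_inj`,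
`IsSite.exists_nbhd`; compare `TrLB_surjA`, `TrLB_injA` in `L3/TrL.lean`. -/
theorem Hom.exc (hu : IsSite u) (φ : F.Hom F') (hl : ∀ c, LocallyOfFiniteType (F.p.app c))
    (he : ∀ c, Etale (φ.q c)) {T : F.Sets} {T' : F'.Sets} (hT : ∀ c, IsClosed (T.T c))
    (h : ∀ c, T'.T c = φ.q c ⁻¹' T.T c)
    (hs : ∀ c, ∀ x ∈ T.T c, ∃ y, φ.q c y = x ∧ IsIso ((φ.q c).residueFieldMap y))
    (hi : ∀ (c : C) (Om : Type) [Field Om] [IsAlgClosed Om] (y y' : Spec (.of Om) ⟶ F'.X.obj c),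
      y ≫ φ.q c = y' ≫ φ.q c → φ.q c (gen y) ∈ T.T c → y = y') :
    (SubP.top _).Le ((SubP.imAdd (φ.push L m) (SubP.top _) (off L m T)).loc u) ∧
      (SubP.comap (φ.push L m) (off L m T)).Le ((off L m T').loc u) := by
  have sep := φ.FamB_sep
  obtain ⟨h1, h2⟩ := φ.loc_of_int (L := L) (m := m)
    (T₁ := ⟨fun _ => ∅, fun _ => Set.mapsTo_empty _ _⟩) (T₂ := T) (T' := T')
    (fun c => Set.empty_subset _) (fun c => Set.preimage_empty) (fun c => (h c).ge)
    (fun c z _ w => by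
      have := hl c
      have := he c
      obtain ⟨W', g', w', hg', H⟩ := Cyc.exists_exc_surj (p := F.p.app c) (φ.q c)
        (hT c).isOpen_compl w (fun x _ hx => hs c x (not_not.1 hx)) z
      obtain ⟨V, f, y, e, hf, he'⟩ := hu.exists_nbhd (U := c) hg'
      obtain ⟨d, a, hda, ha⟩ := H _ _ (F.p.app V ≫ e.hom) (F.X.map f) (φ.q V) (F'.X.map f)
        (TrLB_pb (F.pb f) e he') (φ.isPullback f)
      have hd : d.1 ∈ Cyc m (F'.p.app V) :=
        TrLB_mem_iso e (by rw [← φ.w V, Category.assoc]) d.2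
      refine ⟨V, f, y, hf, ⟨d.1, hd⟩, ?_⟩
      change Disjoint (closure (support (z.1 ∘ F.X.map f - KEW.push (φ.q V) d.1))) (T.T V)
      rw [hda, add_sub_cancel_left]
      exact Set.disjoint_left.2 fun x hx hx' => ha hx (T.maps f hx'))
    (fun c d hd w => by
      have := he c
      obtain ⟨W', g', w', hg', H⟩ := Cyc.exists_exc_inj (m := m) (p := F.p.app c) (φ.q c)
        (hT c).isOpen_compl w (fun Om _ _ y y' hy _ hO => hi c Om y y' hy (not_not.1 hO))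
        ⟨d.1, TrLB_mem_congr (φ.w c).symm d.2⟩ (Disjoint.subset_compl_right hd)
      obtain ⟨V, f, y, e, hf, he'⟩ := hu.exists_nbhd (U := c) hg'
      have ha := H _ (F'.p.app V ≫ e.hom) (F'.X.map f) (by
        rw [φ.w]
        exact TrLB_pb (F'.pb f) e he')
      refine ⟨V, f, y, hf, Set.disjoint_left.2 fun x hx hx' => ha hx ?_⟩
      have h3 := T'.maps f hx'
      rwa [h c] at h3)
  exact ⟨fun c x _ => h1 c x (mem_off_of_empty rfl x), h2⟩

/-- Mayer-Vietoris. Hint: `loc_of_int`, `Cyc.exists_split` with `A = O₁ = range`, `O₂ = T₂ᶜ`,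
`Cyc.mem_range_pushHom`, `Cyc.mem_cycOff_of_pushHom`. -/
theorem Hom.mv (hu : IsSite u) (φ : F.Hom F') (he : ∀ c, IsOpenImmersion (φ.q c))
    {T₁ T₂ : F.Sets} {T' : F'.Sets} (hT : ∀ c, IsClosed (T₂.T c))
    (h₁ : ∀ c, T₁.T c = T₂.T c \ Set.range (φ.q c)) (h : ∀ c, T'.T c = φ.q c ⁻¹' T₂.T c) :
    (off L m T₁).Le ((SubP.imAdd (φ.push L m) (SubP.top _) (off L m T₂)).loc u) ∧
      (SubP.comap (φ.push L m) (off L m T₂)).Le ((off L m T').loc u) := by
  refine φ.loc_of_int (fun c => by rw [h₁]; exact Set.sdiff_subset)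
    (fun c => by
      rw [h₁]
      exact Set.eq_empty_of_forall_notMem fun x hx => hx.2 ⟨x, rfl⟩)
    (fun c => (h c).ge) (fun c z hz w => ?_) fun c d hd w => ?_
  · have := he c
    obtain ⟨W', g', w', hg', H⟩ := Cyc.exists_split z w (Set.range (φ.q c))
      (φ.q c).isOpenEmbedding.isOpen_range (hT c).isOpen_compl Set.inter_subset_right
      (fun x hx hx' => Set.disjoint_left.1 hz hx.1.1 (by rw [h₁]; exact ⟨hx', hx.2⟩))
    obtain ⟨V, f, y, e, hf, he'⟩ := hu.exists_nbhd (U := c) hg'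
    obtain ⟨c₁, c₂, hc, k1, k2, -, -⟩ := H _ (F.p.app V ≫ e.hom) (F.X.map f)
      (TrLB_pb (F.pb f) e he')
    have := he V
    obtain ⟨d, hd⟩ := (Cyc.mem_range_pushHom (φ.q V) (φ.w V)
      ⟨c₁.1, TrLB_mem_iso e rfl c₁.2⟩).2 (by
        rw [TrLB_range (φ.isPullback f)]
        exact fun x hx => (k1 hx).1)
    refine ⟨V, f, y, hf, d, ?_⟩
    rw [hd]
    have hc' : z.1 ∘ F.X.map f = c₁.1 + c₂.1 := congrArg Subtype.val hc
    change Disjoint (closure (support (z.1 ∘ F.X.map f - c₁.1))) (T₂.T V)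
    rw [hc', add_sub_cancel_left]
    exact Set.disjoint_left.2 fun x hx hx' => (k2 hx).1 (T₂.maps f hx')
  · have := he c
    have h2 := Cyc.mem_cycOff_of_pushHom (φ.q c) (φ.w c) hd
    rw [← h c] at h2
    exact Locally.of_forall w (CycOff.pull_mem m (F'.pb _) (T'.maps _) h2)

variable (F) in
/-- A natural family of endomorphisms depending on a function on the base. -/
structure Act where
  /-- the endomorphisms -/
  θ : ∀ c, Γ(u.obj c, ⊤) → (F.X.obj c ⟶ F.X.obj c)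
  nat : ∀ {c' c : C} (φ : c' ⟶ c) (a : Γ(u.obj c, ⊤)),
    θ c' ((u.map φ).appTop a) ≫ F.X.map φ = F.X.map φ ≫ θ c a
  w : ∀ c a, θ c a ≫ F.p.app c = F.p.app c

variable (L m) in
/-- The action on cycles. -/
def Act.ψ (H : F.Act) (c : C) (a : Γ(u.obj c, ⊤)) :
    (F.cy L m).obj (op c) →ₗ[L] (F.cy L m).obj (op c) :=
  (ext1 L (Cyc.pushHom m (H.θ c a) (H.w c a))).hom

theorem Act.ψ_nat (H : F.Act) {V W : C} (f : V ⟶ W) (a : Γ(u.obj W, ⊤))
    (x : (F.cy L m).obj (op W)) : (F.cy L m).map f.op (H.ψ L m W a x) =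
      H.ψ L m V ((u.map f).appTop a) ((F.cy L m).map f.op x) :=
  TrLB_sq L (fun z => Cyc.pull_pushHom _ _ (F.pb f) (F.pb f) _ _ (H.nat f a) z) x

theorem Act.ψ_off (H : F.Act) {T : F.Sets} {c : C} {a : Γ(u.obj c, ⊤)}
    (h : H.θ c a ⁻¹' T.T c ⊆ T.T c) {x : (F.cy L m).obj (op c)} (hx : x ∈ (off L m T).N c) :
    H.ψ L m c a x ∈ (off L m T).N c :=
  map_mem_tsub _ (fun _ ha => Cyc.pushHom_mem_cycOff _ _ h ha) hx

theorem Act.ψ_push (H : F.Act) (η : F.Hom F) {c : C} {a : Γ(u.obj c, ⊤)}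
    (h : H.θ c a ≫ η.q c = η.q c ≫ H.θ c a) (x : (F.cy L m).obj (op c)) :
    (η.push L m).app (op c) (H.ψ L m c a x) = H.ψ L m c a ((η.push L m).app (op c) x) :=
  TrLB_sq L (fun z => (Cyc.pushHom_pushHom _ (H.w c a) _ (η.w c) z).trans
    ((Corr.Corr_pushHom_congr _ _ h z).trans
      (Cyc.pushHom_pushHom _ (η.w c) _ (H.w c a) z).symm)) x

theorem Act.ψ_eq_push (H : F.Act) (η : F.Hom F) {c : C} {a : Γ(u.obj c, ⊤)} (h : H.θ c a = η.q c)
    (x : (F.cy L m).obj (op c)) : H.ψ L m c a x = (η.push L m).app (op c) x :=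
  congrArg (fun k => (ext1 L k).hom x)
    (AddMonoidHom.ext fun z => Corr.Corr_pushHom_congr (H.w c a) (η.w c) h z)

theorem Act.ψ_eq_self (H : F.Act) {c : C} {a : Γ(u.obj c, ⊤)} (h : H.θ c a = 𝟙 _)
    (x : (F.cy L m).obj (op c)) : H.ψ L m c a x = x :=
  congrArg (fun k => k.hom x) (ext1_id (L := L) fun z =>
    (Corr.Corr_pushHom_congr _ (Category.id_comp _) h z).trans (Cyc.pushHom_id z))

end CFam

end Pool.Agent.KEW
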