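import Pool.Agent.P.MP_6277db_ag.KEW.L8b.GB
import Pool.Agent.P.MP_6277db_ag.KEW.L7.Alg1
import Pool.Agent.P.MP_6277db_ag.KEW.CA.Et

/-!
KEW, effectivity: algebras with a family of endomorphisms and an ideal, and relations between them
which are stable under adjoining an invertible variable.
-/

noncomputable section

namespace KEW

open Polynomial

/-- An `F`-algebra with a set of endomorphisms and an ideal. -/
structure RT (F : Type) [CommRing F] : Type 1 where
  /-- the ring -/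
  R : Type
  [inst : CommRing R]
  /-- the structure map -/
  a : F →+* R
  /-- the endomorphisms -/
  Λ : Set (R →+* R)
  /-- the ideal -/
  I : Ideal R

attribute [instance] RT.inst

namespace RT

variable {F : Type} [CommRing F]

/-- Adjoining an invertible variable. -/
def step (T : RT F) : RT F :=
  ⟨Lau T.R, (lauC T.R).comp T.a, lauFam T.Λ, T.I.map (lauC T.R)⟩

/-- Enlarging the ideal by one element. -/
def cut (T : RT F) (f : T.R) : RT F := ⟨T.R, T.a, T.Λ, T.I ⊔ Ideal.span {f}⟩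

theorem step_cut (T : RT F) (f : T.R) : (T.cut f).step = T.step.cut (lauC T.R f) :=
  congrArg (RT.mk (Lau T.R) ((lauC T.R).comp T.a) (lauFam T.Λ)) (by
    change Ideal.map (lauC T.R) (T.I ⊔ Ideal.span {f}) = Ideal.map (lauC T.R) T.I ⊔ _
    rw [Ideal.map_sup, Ideal.map_span, Set.image_singleton]
    rfl)

theorem iterate_step {R : Type} [CommRing R] (a : F →+* R) (I : Ideal R) (n : ℕ) :
    step^[n] ⟨R, a, ∅, I⟩ = ⟨Tor R n, (torC R n).comp a, torFam R n, I.map (torC R n)⟩ := by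
  induction n with
  | zero => exact congrArg (RT.mk R a ∅) (Ideal.map_id I).symm
  | succ n ih =>
    rw [Function.iterate_succ_apply', ih]
    exact congrArg (RT.mk (Lau (Tor R n)) _ _) (Ideal.map_map _ _)

theorem iterate_I_top (n : ℕ) : ∀ T : RT F, T.I = ⊤ → (step^[n] T).I = ⊤ := by
  induction n with
  | zero => exact fun _ h => h
  | succ n ih => exact fun T h => ih T.step ((congrArg _ h).trans (Ideal.map_top _))

/-- Finitely many commuting idempotent endomorphisms over `F` compatible with the ideal. -/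
structure Good (T : RT F) : Prop where
  ft : T.a.FiniteType
  fin : T.Λ.Finite
  ov : ∀ η ∈ T.Λ, η.comp T.a = T.a
  idem : ∀ η ∈ T.Λ, η.comp η = η
  comm : ∀ η ∈ T.Λ, ∀ η' ∈ T.Λ, η.comp η' = η'.comp η
  ideal : ∀ η ∈ T.Λ, T.I ≤ (T.I.map η).radical

/-- Compatibility of a ring map with the families of endomorphisms. -/
structure Compat (T T' : RT F) (φ : T.R →+* T'.R) : Prop where
  ov : φ.comp T.a = T'.a
  c1 : ∀ η ∈ T.Λ, ∃ η' ∈ T'.Λ, φ.comp η = η'.comp φ
  c2 : ∀ η' ∈ T'.Λ, (∃ η ∈ T.Λ, φ.comp η = η'.comp φ) ∨ T'.I.map η' = ⊤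

/-- `T'` is an etale neighbourhood of `V(I)` in `T`. -/
structure Exc (T T' : RT F) (φ : T.R →+* T'.R) : Prop where
  good : T.Good
  good' : T'.Good
  compat : Compat T T' φ
  etale : φ.Etale
  ulp : ULP φ T.I 1
  rad : T'.I.radical = (T.I.map φ).radical

/-- `T'` is the principal open `D(f)` of `T`. -/
structure Mv (T T' : RT F) (l : T.R →+* T'.R) (f : T.R) : Prop where
  good : T.Good
  good' : T'.Good
  compat : Compat T T' l
  away : IsAway l f
  ideal : T'.I = T.I.map l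

/-- `H` is a homotopy from an element of the family to the identity. -/
structure Cyl (T : RT F) (H : T.R →+* T.R[X]) : Prop where
  ov : H.comp T.a = C.comp T.a
  one : (evalRingHom 1).comp H = RingHom.id _
  zero : (evalRingHom 0).comp H ∈ T.Λ
  comm : ∀ η ∈ T.Λ, (mapRingHom η).comp H = H.comp η
  ideal : T.I.map C ≤ (T.I.map H).radical

variable {T T' : RT F}

section aux

variable {R S Q : Type} [CommRing R] [CommRing S] [CommRing Q]

theorem RT_po (φ : R →+* S) : IsPO φ (lauC R) (lauC S) (lauMap φ) := by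
  refine PO_mk (lauMap_lauC φ).symm (fun Q _ a b w => ?_) fun Q _ c c' h1 h2 => lau_ext h1 ?_
  · have h1 : (lauLift a (b (lauL R X)) ((isUnit_lauL_X R).map b)).comp (lauC S) = a :=
      RingHom.ext fun s => lauLift_lauC a _ ((isUnit_lauL_X R).map b) s
    refine ⟨_, h1, lau_ext ?_ (by simp)⟩
    rw [RingHom.comp_assoc, lauMap_lauC, ← RingHom.comp_assoc, h1, w]
  · simpa using RingHom.congr_fun h2 (lauL R X)

theorem RT_ft (R : Type) [CommRing R] : (lauC R).FiniteType := (S7.ep_lau S7.ep_id).finiteType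

theorem RT_eps_lauC (R : Type) [CommRing R] :
    ((lauC R).comp (lauE R)).comp (lauC R) = lauC R := by
  rw [RingHom.comp_assoc, lauE_lauC, RingHom.comp_id]

theorem RT_eps_map (φ : R →+* S) :
    (lauMap φ).comp ((lauC R).comp (lauE R)) = ((lauC S).comp (lauE S)).comp (lauMap φ) := by
  rw [← RingHom.comp_assoc, lauMap_lauC, RingHom.comp_assoc, RingHom.comp_assoc, lauE_lauMap]

theorem RT_map_map (φ : R →+* S) (I : Ideal R) :
    (I.map (lauC R)).map (lauMap φ) = (I.map φ).map (lauC S) := by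
  rw [Ideal.map_map, Ideal.map_map, lauMap_lauC]

theorem RT_rad_le {I J : Ideal R} (h : I ≤ J.radical) (f : R →+* S) :
    I.map f ≤ (J.map f).radical := (Ideal.map_mono h).trans (Ideal.map_radical_le f)

theorem RT_rad_eq {I J : Ideal R} (h : I.radical = J.radical) (f : R →+* S) :
    (I.map f).radical = (J.map f).radical :=
  le_antisymm (Ideal.radical_le_radical_iff.2 (RT_rad_le (Ideal.le_radical.trans h.le) f))
    (Ideal.radical_le_radical_iff.2 (RT_rad_le (Ideal.le_radical.trans h.ge) f))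

theorem RT_map_C (f : R →+* S) : (mapRingHom f).comp C = C.comp f :=
  RingHom.ext fun _ => map_C f

theorem RT_eval_map (f : R →+* S) (r : R) :
    (evalRingHom (f r)).comp (mapRingHom f) = f.comp (evalRingHom r) :=
  Polynomial.ringHom_ext (fun _ => by simp) (by simp)

theorem RT_ulp_id (I : Ideal R) : ULP (RingHom.id R) I 1 :=
  fun _ _ x _ _ => ⟨x, rfl, fun _ hy => hy⟩

end aux

theorem Good.step (h : T.Good) : T.step.Good := by
  refine ⟨(RT_ft T.R).comp h.ft, (h.fin.image _).insert _, ?_, ?_, ?_, ?_⟩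
  · rintro _ (rfl | ⟨η, hη, rfl⟩)
    · exact congrArg (lauC T.R).comp (lauE_over T.a)
    · exact lauMap_over η (h.ov η hη)
  · rintro _ (rfl | ⟨η, hη, rfl⟩)
    · exact congrArg (RingHom.comp · (lauE T.R)) (RT_eps_lauC T.R)
    · exact (lauMap_comp η η).trans (congrArg lauMap (h.idem η hη))
  · rintro _ (rfl | ⟨η, hη, rfl⟩) _ (rfl | ⟨η', hη', rfl⟩)
    · rfl
    · exact (RT_eps_map η').symm
    · exact RT_eps_map η
    · exact (lauMap_comp η' η).trans
        ((congrArg lauMap (h.comm η hη η' hη')).trans (lauMap_comp η η').symm)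
  · rintro _ (rfl | ⟨η, hη, rfl⟩)
    · refine le_trans (le_of_eq ?_) Ideal.le_radical
      exact ((Ideal.map_map _ _).trans (congrArg (Ideal.map · T.I) (RT_eps_lauC T.R))).symm
    · exact (RT_rad_le (h.ideal η hη) (lauC T.R)).trans
        (congrArg Ideal.radical (RT_map_map η T.I)).ge

theorem Compat.step {φ : T.R →+* T'.R} (h : Compat T T' φ) :
    Compat T.step T'.step (lauMap φ) := by
  have key : ∀ {η η'}, φ.comp η = η'.comp φ →
      (lauMap φ).comp (lauMap η) = (lauMap η').comp (lauMap φ) := fun e => by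
    rw [lauMap_comp, lauMap_comp, e]
  refine ⟨lauMap_over φ h.ov, ?_, ?_⟩
  · rintro _ (rfl | ⟨η, hη, rfl⟩)
    · exact ⟨_, Or.inl rfl, RT_eps_map φ⟩
    · obtain ⟨η', h1, h2⟩ := h.c1 η hη
      exact ⟨_, Or.inr ⟨η', h1, rfl⟩, key h2⟩
  · rintro _ (rfl | ⟨η', hη, rfl⟩)
    · exact Or.inl ⟨_, Or.inl rfl, RT_eps_map φ⟩
    · rcases h.c2 η' hη with ⟨η, h1, h2⟩ | h1
      · exact Or.inl ⟨_, Or.inr ⟨η, h1, rfl⟩, key h2⟩
      · exact Or.inr ((RT_map_map η' T'.I).trans ((congrArg _ h1).trans (Ideal.map_top _)))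

theorem Exc.step {φ : T.R →+* T'.R} (h : Exc T T' φ) : Exc T.step T'.step (lauMap φ) := by
  refine ⟨h.good.step, h.good'.step, h.compat.step, S7.po_etale (RT_po φ) h.etale,
    fun L _ x hx _ => ?_, (RT_rad_eq h.rad (lauC T'.R)).trans
      (congrArg Ideal.radical (RT_map_map φ T.I)).symm⟩
  obtain ⟨y, hy, hu⟩ := h.ulp L (x.comp (lauC T.R))
    (fun r hr => hx _ (Ideal.mem_map_of_mem _ hr)) (by rw [map_one]; exact one_ne_zero)
  obtain ⟨c, h1, h2⟩ := S7.po_desc (RT_po φ) y x hy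
  refine ⟨c, h2, fun c' h3 => S7.po_ext (RT_po φ) (Eq.trans (hu _ ?_) h1.symm) (h3.trans h2.symm)⟩
  exact (congrArg c'.comp (lauMap_lauC φ).symm).trans (congrArg (RingHom.comp · (lauC T.R)) h3)

theorem Mv.step {l : T.R →+* T'.R} {f : T.R} (h : Mv T T' l f) :
    Mv T.step T'.step (lauMap l) (lauC T.R f) :=
  ⟨h.good.step, h.good'.step, h.compat.step, (RT_po l).isAway h.away,
    (congrArg (Ideal.map (lauC T'.R)) h.ideal).trans (RT_map_map l T.I).symm⟩

/-- Hint: `H' = lauLift ((mapRingHom (lauC R)).comp H) (C t)`. -/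
theorem Cyl.step {H : T.R →+* T.R[X]} (h : Cyl T H) : ∃ H', Cyl T.step H' := by
  obtain ⟨H', h1, h2⟩ : ∃ H' : Lau T.R →+* (Lau T.R)[X],
      H'.comp (lauC T.R) = (mapRingHom (lauC T.R)).comp H ∧
        H' (lauL T.R X) = C (lauL T.R X) :=
    ⟨lauLift ((mapRingHom (lauC T.R)).comp H) (C (lauL T.R X)) ((isUnit_lauL_X T.R).map C),
      RingHom.ext fun s => lauLift_lauC _ _ ((isUnit_lauL_X T.R).map C) s, by simp⟩
  have ev : ∀ r : T.R, (evalRingHom (lauC T.R r)).comp H' = lauMap ((evalRingHom r).comp H) :=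
    fun r => lau_ext (by
      rw [RingHom.comp_assoc, h1, ← RingHom.comp_assoc, RT_eval_map, lauMap_lauC,
        RingHom.comp_assoc]) (by simp [h2])
  have c1 : (mapRingHom ((lauC T.R).comp (lauE T.R))).comp H' =
      H'.comp ((lauC T.R).comp (lauE T.R)) := by
    refine lau_ext ?_ (by simp [h2])
    rw [RingHom.comp_assoc, h1, ← RingHom.comp_assoc, mapRingHom_comp, RT_eps_lauC,
      RingHom.comp_assoc, RT_eps_lauC, h1]
  have c2 : ∀ η ∈ T.Λ, (mapRingHom (lauMap η)).comp H' = H'.comp (lauMap η) := by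
    refine fun η hη => lau_ext ?_ (by simp [h2])
    rw [RingHom.comp_assoc, h1, ← RingHom.comp_assoc, mapRingHom_comp, lauMap_lauC,
      ← mapRingHom_comp, RingHom.comp_assoc, h.comm η hη, RingHom.comp_assoc, lauMap_lauC,
      ← RingHom.comp_assoc _ _ H', h1, RingHom.comp_assoc]
  refine ⟨H', ?_, ?_, ?_, ?_, ?_⟩
  · change H'.comp ((lauC T.R).comp T.a) = C.comp ((lauC T.R).comp T.a)
    rw [← RingHom.comp_assoc, h1, RingHom.comp_assoc, h.ov, ← RingHom.comp_assoc, RT_map_C,
      RingHom.comp_assoc]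
  · have h3 := ev 1
    rw [map_one, h.one, lauMap_id] at h3
    exact h3
  · have h3 := ev 0
    rw [map_zero] at h3
    exact Or.inr ⟨_, h.zero, h3.symm⟩
  · rintro _ (rfl | ⟨η, hη, rfl⟩)
    · exact c1
    · exact c2 η hη
  · change (T.I.map (lauC T.R)).map C ≤ ((T.I.map (lauC T.R)).map H').radical
    rw [Ideal.map_map, Ideal.map_map, h1, ← RT_map_C, ← Ideal.map_map, ← Ideal.map_map]
    exact RT_rad_le h.ideal _

section start

variable {R S : Type} [CommRing R] [CommRing S] {a : F →+* R} {I : Ideal R}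

theorem good_empty (ha : a.FiniteType) (I : Ideal R) : Good ⟨R, a, ∅, I⟩ :=
  ⟨ha, Set.finite_empty, fun _ h => h.elim, fun _ h => h.elim, fun _ h => h.elim,
    fun _ h => h.elim⟩

theorem compat_empty (φ : R →+* S) (I : Ideal R) (J : Ideal S) :
    Compat ⟨R, a, ∅, I⟩ ⟨S, φ.comp a, ∅, J⟩ φ :=
  ⟨rfl, fun _ h => h.elim, fun _ h => h.elim⟩

theorem exc_of_rad (ha : a.FiniteType) {I J : Ideal R} (h : I.radical = J.radical) :
    Exc ⟨R, a, ∅, J⟩ ⟨R, a, ∅, I⟩ (RingHom.id R) :=
  ⟨good_empty ha J, good_empty ha I, compat_empty (RingHom.id R) J I, S7.etale_id, RT_ulp_id J,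
    h.trans (congrArg Ideal.radical (Ideal.map_id J).symm)⟩

theorem exc_of_ee (ha : a.FiniteType) {φ : R →+* S} (h : EE I φ) :
    Exc ⟨R, a, ∅, I⟩ ⟨S, φ.comp a, ∅, I.map φ⟩ φ :=
  ⟨good_empty ha I, good_empty ((etale_finiteType h.etale).comp ha) _, compat_empty φ I _,
    h.etale, S7.ee_ul h, rfl⟩

theorem mv_of_away (ha : a.FiniteType) (I : Ideal R) {l : R →+* S} {f : R} (h : IsAway l f) :
    Mv ⟨R, a, ∅, I⟩ ⟨S, l.comp a, ∅, I.map l⟩ l f :=
  ⟨good_empty ha I, good_empty ((etale_finiteType h.etale).comp ha) _, compat_empty l I _, h, rfl⟩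

variable (a I) in
/-- The affine line with the endomorphism `X ↦ 1`. -/
def line : RT F := ⟨R[X], C.comp a, {eval₂RingHom C 1}, I.map C⟩

theorem RT_ev_C (φ : R →+* S) (u : S) : (eval₂RingHom φ u).comp C = φ :=
  RingHom.ext fun _ => eval₂_C φ u

/-- Hint: `H = eval₂RingHom (C.comp C) (1 + X * (C X - 1))`. -/
theorem cyl_line (a : F →+* R) (I : Ideal R) : ∃ H, Cyl (line a I) H := by
  obtain ⟨H, h1, h2⟩ : ∃ H : R[X] →+* R[X][X], H.comp C = C.comp C ∧ H X = 1 + X * (C X - 1) :=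
    ⟨eval₂RingHom (C.comp C) (1 + X * (C X - 1)), RT_ev_C _ _, eval₂_X _ _⟩
  have h3 : ∀ r, H (C r) = C (C r) := RingHom.congr_fun h1
  have c1 : (evalRingHom 1).comp H = RingHom.id R[X] :=
    Polynomial.ringHom_ext (fun r => by simp [h3]) (by simp [h2])
  have c2 : (evalRingHom 0).comp H = eval₂RingHom (C : R →+* R[X]) 1 :=
    Polynomial.ringHom_ext (fun r => by simp [h3]) (by simp [h2])
  have c3 : (mapRingHom (eval₂RingHom (C : R →+* R[X]) 1)).comp H = H.comp (eval₂RingHom C 1) :=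
    Polynomial.ringHom_ext (fun r => by simp [h3]) (by simp [h2])
  have c4 : (I.map C).map C = (I.map C).map H := by rw [Ideal.map_map, Ideal.map_map, h1]
  refine ⟨H, congrArg (RingHom.comp · a) h1, c1, c2, ?_, c4.le.trans Ideal.le_radical⟩
  rintro _ rfl
  exact c3

theorem RT_ft_C (ha : a.FiniteType) : ((C : R →+* R[X]).comp a).FiniteType :=
  ep_polynomial.finiteType.comp ha

theorem RT_good (ha : a.FiniteType) {J : Ideal R[X]}
    (hJ : J ≤ (J.map (eval₂RingHom (C : R →+* R[X]) 1)).radical) :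
    Good ⟨R[X], C.comp a, {eval₂RingHom C 1}, J⟩ := by
  refine ⟨RT_ft_C ha, Set.finite_singleton _, ?_, ?_, ?_, ?_⟩
  · rintro _ rfl
    exact congrArg (RingHom.comp · a) (RT_ev_C C (1 : R[X]))
  · rintro _ rfl
    exact Polynomial.ringHom_ext (R := R) (S := R[X]) (fun r => by simp) (by simp)
  · rintro _ rfl _ rfl
    rfl
  · rintro _ rfl
    exact hJ

theorem mv_line (ha : a.FiniteType) (I : Ideal R) :
    Mv (line a I) (step ⟨R, a, ∅, I⟩) (lauL R) X := by
  have e : (lauL R).comp (eval₂RingHom C 1) = ((lauC R).comp (lauE R)).comp (lauL R) :=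
    Polynomial.ringHom_ext (fun r => by
      simpa [lauC] using (RingHom.congr_fun (RT_eps_lauC R) r).symm) (by simp)
  refine ⟨RT_good ha ?_, (good_empty ha I).step, ⟨rfl, ?_, ?_⟩, isAway_lauL R,
    (Ideal.map_map _ _).symm⟩
  · rw [Ideal.map_map, RT_ev_C]
    exact Ideal.le_radical
  · rintro _ rfl
    exact ⟨_, Or.inl rfl, e⟩
  · rintro _ (rfl | ⟨_, h, -⟩)
    · exact Or.inl ⟨_, rfl, e⟩
    · exact h.elim

theorem exc_line (ha : a.FiniteType) (I : Ideal R) :
    Exc ⟨R[X], C.comp a, ∅, I.map C ⊔ Ideal.span {X}⟩ ((line a I).cut X) (RingHom.id R[X]) := by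
  have e : (I.map C ⊔ Ideal.span {X} : Ideal R[X]).map (eval₂RingHom (C : R →+* R[X]) 1) = ⊤ := by
    have h1 := Ideal.mem_map_of_mem (eval₂RingHom (C : R →+* R[X]) 1)
      (Ideal.mem_sup_right (S := I.map C) (Ideal.mem_span_singleton_self (X : R[X])))
    rw [coe_eval₂RingHom, eval₂_X] at h1
    exact (Ideal.eq_top_iff_one _).2 h1
  refine ⟨good_empty (RT_ft_C ha) _, RT_good ha ?_, ⟨rfl, fun _ h => h.elim, ?_⟩, S7.etale_id,
    RT_ulp_id _, congrArg Ideal.radical (Ideal.map_id _).symm⟩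
  · exact le_trans (le_top.trans e.ge) Ideal.le_radical
  · rintro _ rfl
    exact Or.inr e

end start

end RT

end KEW
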