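import Pool.Agent.P.MP_6277db_ag.KEW.Eff.Ring
import Pool.Agent.P.MP_6277db_ag.KEW.Eff.RT
import Pool.Agent.P.MP_6277db_ag.KEW.L8b.Geo

/-!
KEW, effectivity: the twisted motives of pairs satisfy the axioms `PairTh`.
-/

set_option backward.isDefEq.respectTransparency false

noncomputable section

open CategoryTheory Limits AlgebraicGeometry Opposite Polynomial

namespace Pool.Agent.KEW

open _root_.KEW SubP

variable {F : Type} [CommRing F] (L : Type 1) [CommRing L] (m : ℕ)

/-- The reduced motive of the pair `(Spec R, Spec R - V(I))`. -/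
def motT (T : RT F) : Ch (Sm F) L := (sgl 0).obj (sq (Red L m T.a T.Λ) (Off L m T.a T.I))

variable {L m} {T T' : RT F}

theorem pu_red {φ : T.R →+* T'.R} (h : RT.Compat T T' φ) (h' : T'.Good) :
    (Red L m T'.a T'.Λ).Le (comap (pu L m φ h.ov) (Red L m T.a T.Λ)) := fun W x hx =>
  mem_Red.2 fun η hη e => by
    obtain ⟨η', h1, h2⟩ := h.c1 η hη
    have e' : (φ.comp η).comp T.a = T'.a := by rw [RingHom.comp_assoc, e, h.ov]
    rw [pu_pu η φ _ e h.ov e' rfl, ← pu_pu φ η' _ h.ov (h'.ov η' h1) e' h2.symm,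
      mem_Red.1 hx η' h1, map_zero]

/-- Local surjectivity passes to the reduced parts. -/
theorem red_imAdd {φ : T.R →+* T'.R} (h : RT.Compat T T' φ) (hT : T.Good) (h' : T'.Good)
    (hI : T'.I ≤ (T.I.map φ).radical) {A : SubP (MR L m T.a)}
    (hs : A.Le ((imAdd (pu L m φ h.ov) (top _) (Off L m T.a T.I)).loc (smS F))) :
    ((Red L m T.a T.Λ).inf A).Le
      ((imAdd (pu L m φ h.ov) (Red L m T'.a T'.Λ) (Off L m T.a T.I)).loc (smS F)) := by
  refine le_loc_of_locally fun W y hy w => (locally_of_mem_loc (hs W y hy.2) w).mono fun V f H => ?_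
  obtain ⟨x, -, hx⟩ := mem_imAdd.1 H
  have hy' := (Red L m T.a T.Λ).res f hy.1
  refine mem_imAdd.2 (exists_red ?_ ?_ ?_
    (fun z => (MR L m T.a).map f.op y - (pu L m φ h.ov).app (op V) z ∈ (Off L m T.a T.I).N V) hx ?_)
  · refine (h'.fin.dependent_image fun η hη => pu L m η (h'.ov η hη)).subset ?_
    rintro _ ⟨η, hη, e, rfl⟩
    exact ⟨η, hη, rfl⟩
  · rintro _ ⟨η, hη, e, rfl⟩
    exact pu_comp η η η e e e (h'.idem η hη)
  · rintro _ ⟨η, hη, e, rfl⟩ _ ⟨η', hη', e', rfl⟩
    have e2 : (η.comp η').comp T'.a = T'.a := by rw [RingHom.comp_assoc, e', e]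
    exact (pu_comp η' η _ e' e e2 rfl).trans (pu_comp η η' _ e e' e2 (h'.comm η' hη' η hη)).symm
  · rintro _ ⟨η', hη', e', rfl⟩ z hz
    rw [map_sub, ← sub_add]
    refine add_mem hz ?_
    rcases h.c2 η' hη' with ⟨η, hη, e⟩ | e
    · have e1 := hT.ov η hη
      have e2 : (φ.comp η).comp T.a = T'.a := by rw [RingHom.comp_assoc, e1, h.ov]
      have h3 := neg_mem (mem_comap.1 (pu_off η e1 (hT.ideal η hη) V _ hz))
      rwa [map_sub, mem_Red.1 hy' η hη e1, zero_sub, neg_neg, pu_pu η φ _ e1 h.ov e2 rfl,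
        ← pu_pu φ η' _ h.ov e' e2 e.symm] at h3
    · exact pu_off φ h.ov hI V _ (pu_mem_off η' e' e z)

variable [IsNoetherianRing F] {K : Ch (Sm F) L → Prop} (hK : Thick (NGen (smS F)) K)
include hK

theorem mot_exc {φ : T.R →+* T'.R} (h : RT.Exc T T' φ) : K (motT L m T') ↔ K (motT L m T) := by
  have hI : T'.I ≤ (T.I.map φ).radical := h.rad ▸ Ideal.le_radical
  obtain ⟨h1, h2⟩ := ring_exc (L := L) (m := m) h.good.ft φ h.compat.ov h.etale h.ulp h.rad
  exact hK.wg_iff (wg_sqMap (pu L m φ h.compat.ov) (pu_red h.compat h.good')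
    (fun W x hx => pu_off φ _ hI W x hx.2) (fun W x hx => h2 W x hx.2)
    fun W y hy => red_imAdd h.compat h.good h.good' hI h1 W y ⟨hy, trivial⟩)

theorem mot_mv {l : T.R →+* T'.R} {f : T.R} (h : RT.Mv T T' l f) :
    (K (motT L m T') → K (motT L m (T.cut f)) → K (motT L m T)) ∧
    (K (motT L m T') → K (motT L m T) → K (motT L m (T.cut f))) := by
  have hI : T'.I ≤ (T.I.map l).radical := h.ideal ▸ Ideal.le_radical
  obtain ⟨h1, h2⟩ := ring_mv (L := L) (m := m) l h.compat.ov h.away T.I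
  have ht : (T.I ⊔ Ideal.span {f}).map l = ⊤ :=
    Ideal.eq_top_of_isUnit_mem _ (Ideal.mem_map_of_mem l
      (Ideal.mem_sup_right (Ideal.mem_span_singleton_self f))) h.away.isUnit
  have h3 := hK.wg_iff (wg_sqMap (A' := (Red L m T.a T.Λ).inf (Off L m T.a (T.I ⊔ Ideal.span {f})))
    (B := Off L m T'.a T'.I) (pu L m l h.compat.ov)
    (fun W x hx => ⟨pu_red h.compat h.good' W x hx, pu_mem_off l _ ht x⟩)
    (fun W x hx => pu_off l _ hI W x hx.2) (fun W x hx => h.ideal ▸ h2 W x hx.2)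
    (red_imAdd h.compat h.good h.good' hI h1))
  obtain ⟨i, p, w, hS⟩ := exists_ses (Red L m T.a T.Λ)
    (off_le (L := L) (m := m) (a := T.a) (I := T.I) (J := T.I ⊔ Ideal.span {f})
      (le_sup_left.trans Ideal.le_radical))
  exact ⟨fun a b => hK.mid _ (shortExact_sgl hS 0) (h3.1 a) b,
    fun a b => hK.right _ (shortExact_sgl hS 0) (h3.1 a) b⟩

omit [IsNoetherianRing F] in
theorem mot_cyl {H : T.R →+* T.R[X]} (h : RT.Cyl T H) : K (motT L m T) := by
  obtain ⟨ψ, h1, h2, h3, h4, h5⟩ := exists_psi (L := L) (m := m) H h.ov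
  have e : ((evalRingHom 0).comp H).comp T.a = T.a := by
    rw [RingHom.comp_assoc, h.ov]
    ext r
    simp
  refine hK.loc _ (loc_sq ψ h1 (fun W t x hx => mem_Red.2 fun η hη e => ?_) (h2 _ h.ideal)
    (h4 h.one) fun W x hx => ?_)
  · rw [h3 η e (h.comm η hη), mem_Red.1 hx η hη, map_zero]
  · rw [h5 _ e rfl, mem_Red.1 hx _ h.zero]
    exact zero_mem _

theorem mot_exc_iter (n : ℕ) : ∀ {T T' : RT F} {φ : T.R →+* T'.R}, RT.Exc T T' φ →
    (K (motT L m (RT.step^[n] T')) ↔ K (motT L m (RT.step^[n] T))) := by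
  induction n with
  | zero => exact fun h => mot_exc hK h
  | succ n ih => exact fun h => ih h.step

theorem mot_mv_iter (n : ℕ) : ∀ {T T' : RT F} {l : T.R →+* T'.R} {f : T.R}, RT.Mv T T' l f →
    (K (motT L m (RT.step^[n] T')) → K (motT L m (RT.step^[n] (T.cut f))) →
      K (motT L m (RT.step^[n] T))) ∧
    (K (motT L m (RT.step^[n] T')) → K (motT L m (RT.step^[n] T)) →
      K (motT L m (RT.step^[n] (T.cut f)))) := by
  induction n with
  | zero => exact fun h => mot_mv hK h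
  | succ n ih =>
    intro T T' l f h
    have := ih h.step
    rwa [← RT.step_cut] at this

omit [IsNoetherianRing F] in
theorem mot_cyl_iter (n : ℕ) : ∀ {T : RT F} {H : T.R →+* T.R[X]}, RT.Cyl T H →
    K (motT L m (RT.step^[n] T)) := by
  induction n with
  | zero => exact fun h => mot_cyl hK h
  | succ n ih => exact fun h => h.step.elim fun _ h' => ih h'

/-- The twisted motives of pairs satisfy the axioms. -/
theorem pairTh (r : ℕ)
    (hbase : ∀ (n : ℕ) (R : Type) [CommRing R] (a : F →+* R), EP a → r ≤ n →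
      K ((sgl 0).obj ((fgt L m F).obj (redP L m ((torC R n).comp a) (torFam R n))))) :
    PairTh F r fun n _ _ a I => K (motT L m (RT.step^[n] ⟨_, a, ∅, I⟩)) where
  base n R _ a ha hn := by
    rw [RT.iterate_step, Ideal.map_bot]
    obtain ⟨e⟩ := nonempty_redIso (L := L) (m := m) ((torC R n).comp a) (torFam R n)
    exact hK.of_iso ((sgl 0).mapIso e) (hbase n R a ha hn)
  top n R _ a _ := by
    refine hK.of_isZero ((sgl 0).map_isZero (isZero_sq fun W x _ => ?_))
    rw [RT.iterate_I_top n _ rfl]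
    exact mem_off_top x
  rad n _ _ _ _ _ ha h := (mot_exc_iter hK n (RT.exc_of_rad ha.finiteType h)).1
  loc1 n _ _ _ _ _ I _ _ ha hl := (mot_mv_iter hK n (RT.mv_of_away ha.finiteType I hl)).1
  loc2 n _ _ _ _ _ I _ _ ha hl := (mot_mv_iter hK n (RT.mv_of_away ha.finiteType I hl)).2
  ee n _ _ _ _ _ _ _ ha h := mot_exc_iter hK n (RT.exc_of_ee ha.finiteType h)
  susp n _ _ a I ha h := (mot_exc_iter hK n (RT.exc_line ha.finiteType I)).1
    ((mot_mv_iter hK n (RT.mv_line ha.finiteType I)).2 h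
      ((RT.cyl_line a I).elim fun _ h' => mot_cyl_iter hK n h'))

end Pool.Agent.KEW
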