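import Pool.Agent.P.MP_6277db_ag.KEW.Eff.Fam
import Pool.Agent.P.MP_6277db_ag.KEW.L7.Alg1

/-!
KEW, effectivity: cycles on `W × Spec R` for smooth `W`.
-/

set_option backward.isDefEq.respectTransparency false

noncomputable section

open CategoryTheory Limits AlgebraicGeometry Opposite TensorProduct Function Polynomial

namespace Pool.Agent.KEW

open _root_.KEW

variable {F R S T : Type} [CommRing F] [CommRing R] [CommRing S] [CommRing T]

/-- The family `W ↦ W × Spec R`. -/
def pFam (a : F →+* R) : CFam (smS F) where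
  X :=
    { obj := fun W => pullback ((smV F).obj W).hom (spO a).hom
      map := fun φ => Corr.lmap ((smV F).map φ) (spO a)
      map_id := fun W => by
        refine pullback.hom_ext ?_ ?_
        · rw [Corr.Corr_lmap_fst, (smV F).map_id, Over.id_left, Category.comp_id, Category.id_comp]
        · rw [Corr.Corr_lmap_snd, Category.id_comp]
      map_comp := fun φ ψ => by
        refine pullback.hom_ext ?_ ?_
        · rw [Category.assoc, Corr.Corr_lmap_fst, Corr.Corr_lmap_fst, Corr.Corr_lmap_fst_assoc,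
            (smV F).map_comp, Over.comp_left]
        · rw [Category.assoc, Corr.Corr_lmap_snd, Corr.Corr_lmap_snd, Corr.Corr_lmap_snd] }
  p := { app := fun _ => pullback.fst _ _
         naturality := fun _ _ φ => Corr.Corr_lmap_fst ((smV F).map φ) (spO a) }
  sep W := (inferInstance : IsSeparated (pullback.fst ((smV F).obj W).hom (spO a).hom))
  pb φ := Corr.isPullback_lmap ((smV F).map φ) (spO a)

/-- The projection to `Spec R`. -/
def pSnd (a : F →+* R) (W : Sm F) : (pFam a).X.obj W ⟶ Spec (.of R) :=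
  pullback.snd ((smV F).obj W).hom (spO a).hom

theorem map_pSnd (a : F →+* R) {V W : Sm F} (φ : V ⟶ W) :
    (pFam a).X.map φ ≫ pSnd a W = pSnd a V := Corr.Corr_lmap_snd _ _

theorem isPullback_pSnd (a : F →+* R) (W : Sm F) :
    IsPullback ((pFam a).p.app W) (pSnd a W) ((smV F).obj W).hom (spm a) :=
  IsPullback.of_hasPullback _ _

/-- The preimages of `V(I)`. -/
def zSet (a : F →+* R) (I : Ideal R) : (pFam a).Sets :=
  (pFam a).preim (pSnd a) (map_pSnd a) (PrimeSpectrum.zeroLocus (I : Set R))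

theorem mem_zSet {a : F →+* R} {I : Ideal R} {W : Sm F} {x : (pFam a).X.obj W} :
    x ∈ (zSet a I).T W ↔ I ≤ (pSnd a W x : PrimeSpectrum R).asIdeal := Iff.rfl

theorem isClosed_zSet (a : F →+* R) (I : Ideal R) (W : Sm F) : IsClosed ((zSet a I).T W) :=
  (PrimeSpectrum.isClosed_zeroLocus _).preimage (pSnd a W).continuous

variable {a : F →+* R} {b : F →+* S} {c : F →+* T}

/-- The morphism of families attached to an algebra map. -/
def pHom (φ : R →+* S) (h : φ.comp a = b) : (pFam a).Hom (pFam b) where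
  q W := Corr.rmap ((smV F).obj W) (spH φ h)
  nat ψ := (Corr.isPullback_lmap_rmap ((smV F).map ψ) (spH φ h)).w.symm
  w W := Corr.rmap_fst _ _

theorem pHom_pSnd (φ : R →+* S) (h : φ.comp a = b) (W : Sm F) :
    (pHom φ h).q W ≫ pSnd a W = pSnd b W ≫ spm φ := Corr.Corr_rmap_snd _ _

theorem isPullback_pHom (φ : R →+* S) (h : φ.comp a = b) (W : Sm F) :
    IsPullback (pSnd b W) ((pHom φ h).q W) (spm φ) (pSnd a W) := Corr.isPullback_rmap _ _

theorem pFam_ext {W : Sm F} {Y : Scheme.{0}} {f g : Y ⟶ (pFam a).X.obj W}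
    (h₁ : f ≫ (pFam a).p.app W = g ≫ (pFam a).p.app W) (h₂ : f ≫ pSnd a W = g ≫ pSnd a W) :
    f = g := pullback.hom_ext h₁ h₂

theorem preimage_zSet (φ : R →+* S) (h : φ.comp a = b) (I : Ideal R) (W : Sm F) :
    (pHom φ h).q W ⁻¹' (zSet a I).T W = (zSet b (I.map φ)).T W := by
  ext x
  rw [Set.mem_preimage, mem_zSet, mem_zSet, ← Scheme.Hom.comp_apply, pHom_pSnd,
    Scheme.Hom.comp_apply, Ideal.map_le_iff_le_comap]
  rfl

theorem zSet_mono {I J : Ideal R} (h : I ≤ J.radical) (W : Sm F) :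
    (zSet a J).T W ⊆ (zSet a I).T W := fun _ hx =>
  h.trans ((Ideal.IsPrime.radical_le_iff (PrimeSpectrum.isPrime _)).2 hx)

theorem zSet_top (W : Sm F) : (zSet a ⊤).T W = ∅ :=
  Set.eq_empty_of_forall_notMem fun _ hx => (PrimeSpectrum.isPrime _).ne_top (top_le_iff.1 hx)

theorem zSet_bot (W : Sm F) : (zSet a ⊥).T W = Set.univ :=
  Set.eq_univ_of_forall fun _ => mem_zSet.2 bot_le

variable (L : Type 1) [CommRing L] (m : ℕ)

/-- Correspondences to `Spec R`. -/
abbrev MR (a : F →+* R) : PSh (Sm F) L := (pFam a).cy L m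

/-- Correspondences to the complement of `V(I)`. -/
def Off (a : F →+* R) (I : Ideal R) : SubP (MR L m a) := CFam.off L m (zSet a I)

/-- Push forward along an algebra map. -/
def pu (φ : R →+* S) (h : φ.comp a = b) : MR L m b ⟶ MR L m a := (pHom φ h).push L m

/-- The part killed by the `F`-endomorphisms in `Λ`. -/
def Red (a : F →+* R) (Λ : Set (R →+* R)) : SubP (MR L m a) :=
  SubP.red {θ | ∃ φ ∈ Λ, ∃ h : φ.comp a = a, θ = pu L m φ h}

variable {L m}

theorem mem_Red {Λ : Set (R →+* R)} {W : Sm F} {x : (MR L m a).obj (op W)} :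
    x ∈ (Red L m a Λ).N W ↔ ∀ φ ∈ Λ, ∀ h : φ.comp a = a, (pu L m φ h).app (op W) x = 0 :=
  SubP.mem_red.trans ⟨fun H φ hφ h => H _ ⟨φ, hφ, h, rfl⟩, by
    rintro H _ ⟨φ, hφ, h, rfl⟩
    exact H φ hφ h⟩

theorem pu_comp (φ : R →+* S) (ψ : S →+* T) (χ : R →+* T) (h : φ.comp a = b) (h' : ψ.comp b = c)
    (h'' : χ.comp a = c) (e : ψ.comp φ = χ) : pu L m ψ h' ≫ pu L m φ h = pu L m χ h'' := by
  refine CFam.Hom.push_comp _ _ _ fun W => pFam_ext ?_ ?_
  · rw [Category.assoc, (pHom φ h).w, (pHom ψ h').w, (pHom χ h'').w]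
  · rw [Category.assoc, pHom_pSnd, ← Category.assoc, pHom_pSnd, pHom_pSnd, Category.assoc,
      spm_comp, e]

theorem pu_pu (φ : R →+* S) (ψ : S →+* T) (χ : R →+* T) (h : φ.comp a = b) (h' : ψ.comp b = c)
    (h'' : χ.comp a = c) (e : ψ.comp φ = χ) {W : Sm F} (x : (MR L m c).obj (op W)) :
    (pu L m φ h).app (op W) ((pu L m ψ h').app (op W) x) = (pu L m χ h'').app (op W) x :=
  congrArg (fun θ : MR L m c ⟶ MR L m a => θ.app (op W) x) (pu_comp φ ψ χ h h' h'' e)

theorem off_le {I J : Ideal R} (h : I ≤ J.radical) : (Off L m a I).Le (Off L m a J) :=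
  CFam.off_mono (zSet_mono h)

theorem mem_off_top {W : Sm F} (x : (MR L m a).obj (op W)) : x ∈ (Off L m a ⊤).N W :=
  CFam.mem_off_of_empty (zSet_top W) x

theorem mem_off_bot {W : Sm F} {x : (MR L m a).obj (op W)} : x ∈ (Off L m a ⊥).N W ↔ x = 0 :=
  ⟨CFam.eq_zero_of_mem_off (zSet_bot W), fun h => h ▸ zero_mem _⟩

theorem pu_off (φ : R →+* S) (h : φ.comp a = b) {I : Ideal R} {J : Ideal S}
    (hJ : J ≤ (I.map φ).radical) : (Off L m b J).Le (SubP.comap (pu L m φ h) (Off L m a I)) :=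
  (pHom φ h).push_off fun W => (preimage_zSet φ h I W).le.trans (zSet_mono hJ W)

theorem pu_mem_off (φ : R →+* S) (h : φ.comp a = b) {I : Ideal R} (hI : I.map φ = ⊤) {W : Sm F}
    (x : (MR L m b).obj (op W)) : (pu L m φ h).app (op W) x ∈ (Off L m a I).N W :=
  (pHom φ h).push_mem_off (by rw [preimage_zSet, hI, zSet_top]) x

theorem RingA_ker {X : Scheme.{0}} {K : Type} [Field K] (y : Spec (.of K) ⟶ X)
    (g : X ⟶ Spec (.of R)) {j : R →+* K} (hj : spm j = y ≫ g) {I : Ideal R}
    (hI : I ≤ (g (gen y) : PrimeSpectrum R).asIdeal) : ∀ r ∈ I, j r = 0 := by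
  intro r hr
  have h := hI hr
  rw [← gen_comp, ← hj, gen_spm_asIdeal] at h
  exact h

theorem RingA_zSet_eq {I J : Ideal R} (h : I.radical = J.radical) (W : Sm F) :
    (zSet a I).T W = (zSet a J).T W :=
  (zSet_mono (Ideal.le_radical.trans h.ge) W).antisymm (zSet_mono (Ideal.le_radical.trans h.le) W)

/-- Etale excision. Hint: `CFam.Hom.exc`, `isSite_sm`, `isPullback_pHom`;
a point `x` of `W × Spec R` over `V(I)` gives the field point `fromSpecResidueField x ≫ pSnd`, which is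
`spm` of a ring map (`spm_surjective`); lift it by `ULP` and use `TrLB_res_of_sec`. -/
theorem ring_exc [IsNoetherianRing F] (ha : a.FiniteType) (φ : R →+* S) (h : φ.comp a = b)
    (hφ : φ.Etale) {I : Ideal R} {J : Ideal S} (hU : ULP φ I 1) (hJ : J.radical = (I.map φ).radical) :
    (SubP.top _).Le ((SubP.imAdd (pu L m φ h) (SubP.top _) (Off L m a I)).loc (smS F)) ∧
      (SubP.comap (pu L m φ h) (Off L m a I)).Le ((Off L m b J).loc (smS F)) := by
  have ha' : LocallyOfFiniteType (spm a) :=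
    (HasRingHomProperty.Spec_iff (P := @LocallyOfFiniteType)).2 ha
  have hφ' : Etale (spm φ) := (HasRingHomProperty.Spec_iff (P := @Etale)).2 hφ
  refine CFam.Hom.exc (isSite_sm F) (pHom φ h)
    (fun W => MorphismProperty.of_isPullback (isPullback_pSnd a W).flip ha')
    (fun W => MorphismProperty.of_isPullback (isPullback_pHom φ h W) hφ') (isClosed_zSet a I)
    (fun W => (RingA_zSet_eq hJ W).trans (preimage_zSet φ h I W).symm) (fun W x hx => ?_)
    fun W Om _ _ y y' e hy => ?_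
  · let K : Type := ((pFam a).X.obj W).residueField x
    let s : Spec (.of K) ⟶ (pFam a).X.obj W := ((pFam a).X.obj W).fromSpecResidueField x
    obtain ⟨j, hj⟩ := spm_surjective (s ≫ pSnd a W)
    have hs : gen s = x := Scheme.fromSpecResidueField_apply _ _
    obtain ⟨k, hk, -⟩ := hU K j (RingA_ker s _ hj (by rw [hs]; exact hx)) (by simp)
    have w : spm k ≫ spm φ = s ≫ pSnd a W := by rw [spm_comp, hk, hj]
    exact ⟨_, TrLB_res_of_sec _ x ((isPullback_pHom φ h W).lift _ _ w)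
      ((isPullback_pHom φ h W).lift_snd _ _ w) (genPt K)⟩
  · obtain ⟨k, hk⟩ := spm_surjective (y ≫ pSnd b W)
    obtain ⟨k', hk'⟩ := spm_surjective (y' ≫ pSnd b W)
    have e1 : spm (k.comp φ) = (y ≫ (pHom φ h).q W) ≫ pSnd a W := by
      rw [← spm_comp, hk, Category.assoc, Category.assoc, pHom_pSnd]
    have e2 : spm (k'.comp φ) = (y ≫ (pHom φ h).q W) ≫ pSnd a W := by
      rw [e, ← spm_comp, hk', Category.assoc, Category.assoc, pHom_pSnd]
    have e3 := (hU Om (k.comp φ) (RingA_ker _ _ e1 (by rw [gen_comp]; exact hy))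
      (by simp)).unique rfl (spm_injective (e2.trans e1.symm))
    exact (isPullback_pHom φ h W).hom_ext (by rw [← hk, ← hk', e3]) e

theorem RingA_away {l : R →+* S} {f : R} (hl : IsAway l f) : IsOpenImmersion (spm l) ∧
    Set.range (spm l) = {x : PrimeSpectrum R | f ∉ x.asIdeal} := by
  let := l.toAlgebra
  have : IsLocalization.Away f S := hl
  exact ⟨IsOpenImmersion.of_isLocalization f, PrimeSpectrum.localization_away_comap_range S f⟩

/-- Mayer-Vietoris. Hint: `CFam.Hom.mv`, `TrLB_range`, the range of `spm l` is `D(f)`. -/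
theorem ring_mv [IsNoetherianRing F] (l : R →+* S) (h : l.comp a = b) {f : R} (hl : IsAway l f)
    (I : Ideal R) :
    (Off L m a (I ⊔ Ideal.span {f})).Le
        ((SubP.imAdd (pu L m l h) (SubP.top _) (Off L m a I)).loc (smS F)) ∧
      (SubP.comap (pu L m l h) (Off L m a I)).Le ((Off L m b (I.map l)).loc (smS F)) := by
  obtain ⟨h1, h2⟩ := RingA_away hl
  refine CFam.Hom.mv (isSite_sm F) (pHom l h)
    (fun W => MorphismProperty.of_isPullback (isPullback_pHom l h W) h1) (isClosed_zSet a I)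
    (fun W => ?_) fun W => (preimage_zSet l h I W).symm
  ext x
  rw [TrLB_range (isPullback_pHom l h W), h2, Set.mem_sdiff, mem_zSet, mem_zSet, sup_le_iff,
    Ideal.span_singleton_le_iff_mem]
  exact and_congr_right fun _ => not_not.symm

theorem RingB_comp {X Y Z : Scheme.{0}} (f : X ⟶ Y) (g : Y ⟶ Z) (x : Γ(Z, ⊤)) :
    (f ≫ g).appTop x = f.appTop (g.appTop x) := by
  rw [Scheme.Hom.comp_appTop]
  rfl

theorem RingB_ext {Y : Scheme.{0}} {f g : Y ⟶ Spec (.of R)}
    (h : ∀ r, f.appTop (fn r) = g.appTop (fn r)) : f = g := by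
  refine ext_of_isAffine (CommRingCat.hom_ext (RingHom.ext fun x => ?_))
  obtain ⟨r, rfl⟩ := fn_bijective.2 x
  exact h r

theorem RingB_ex {Y : Scheme.{0}} (j : R →+* Γ(Y, ⊤)) :
    ∃ f : Y ⟶ Spec (.of R), ∀ r, f.appTop (fn r) = j r := by
  refine ⟨Y.toSpecΓ ≫ spm j, fun r => ?_⟩
  rw [RingB_comp, appTop_spm_fn, Scheme.toSpecΓ_appTop]
  change ((Scheme.ΓSpecIso Γ(Y, ⊤)).inv ≫ (Scheme.ΓSpecIso Γ(Y, ⊤)).hom).hom (j r) = j r
  rw [Iso.inv_hom_id]
  rfl

theorem RingB_eval {X Y : Scheme.{0}} (f : X ⟶ Y) (g : Y ⟶ Spec (.of R)) (t : Γ(Y, ⊤))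
    (q : R[X]) : f.appTop (eval₂ (g.appTop.hom.comp fn) t q) =
      eval₂ ((f ≫ g).appTop.hom.comp fn) (f.appTop t) q := by
  rw [Scheme.Hom.comp_appTop]
  exact hom_eval₂ q _ f.appTop.hom t

/-- The action attached to a homotopy `H : R → R[X]`. Hint: the second component of `θ W t` is
`toSpecΓ ≫ Spec.map` of the ring map `eval₂RingHom (pSnd^* ∘ fn) (p^* t) ∘ H : R → Γ(W × Spec R)`;
maps to `Spec R` are determined by their effect on `fn r` (`ext_to_Spec`). -/
theorem exists_act (H : R →+* R[X]) (hH : H.comp a = C.comp a) : ∃ A : (pFam a).Act,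
    ∀ (W : Sm F) (t : Γ((smS F).obj W, ⊤)) (r : R),
      (A.θ W t ≫ pSnd a W).appTop (fn r) = eval₂ ((pSnd a W).appTop.hom.comp fn)
        (((pFam a).p.app W).appTop t) (H r) := by
  choose s hs using fun (W : Sm F) (t : Γ((smS F).obj W, ⊤)) => RingB_ex
    ((eval₂RingHom ((pSnd a W).appTop.hom.comp fn) (((pFam a).p.app W).appTop t)).comp H)
  have w : ∀ W t, (pFam a).p.app W ≫ ((smV F).obj W).hom = s W t ≫ spm a := fun W t => by
    rw [(isPullback_pSnd a W).w]
    refine RingB_ext fun r => ?_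
    have e : H (a r) = C (a r) := RingHom.congr_fun hH r
    rw [RingB_comp, RingB_comp, appTop_spm_fn, hs, RingHom.comp_apply, e, coe_eval₂RingHom,
      eval₂_C]
    rfl
  refine ⟨⟨fun W t => (isPullback_pSnd a W).lift _ _ (w W t), fun {V W} φ t => pFam_ext ?_ ?_,
    fun W t => IsPullback.lift_fst _ _ _ _⟩, fun W t r => ?_⟩
  · rw [Category.assoc, Category.assoc, IsPullback.lift_fst, (pFam a).p.naturality,
      IsPullback.lift_fst_assoc]
  · rw [Category.assoc, Category.assoc, IsPullback.lift_snd, map_pSnd, IsPullback.lift_snd]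
    refine RingB_ext fun r => ?_
    rw [RingB_comp, hs, hs, RingHom.comp_apply, RingHom.comp_apply, coe_eval₂RingHom,
      coe_eval₂RingHom, RingB_eval, map_pSnd, ← RingB_comp, ← RingB_comp, (pFam a).p.naturality]
  · rw [IsPullback.lift_snd, hs]
    rfl

theorem RingB_mem {Y : Scheme.{0}} (f : Y ⟶ Spec (.of R)) (y : Y) (r : R) :
    r ∈ (f y : PrimeSpectrum R).asIdeal ↔ ev (geo y) (f.appTop (fn r)) = 0 := by
  obtain ⟨j, hj⟩ := spm_surjective (geo y ≫ f)
  rw [← ev_comp, ← hj, ev_spm_fn, ← RingHom.mem_ker, ← gen_spm_asIdeal, hj, gen_comp, gen_geo]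

/-- The contraction attached to a homotopy. Hint: `exists_act` and the lemmas `CFam.Act.ψ_*`; for the
ideal condition use field points (`geo`, `ev`). -/
theorem exists_psi (H : R →+* R[X]) (hH : H.comp a = C.comp a) :
    ∃ ψ : ∀ W : Sm F, Γ((smS F).obj W, ⊤) →
        ((MR L m a).obj (op W) →ₗ[L] (MR L m a).obj (op W)),
      (∀ {V W : Sm F} (f : V ⟶ W) (t : Γ((smS F).obj W, ⊤)) (x : (MR L m a).obj (op W)),
        (MR L m a).map f.op (ψ W t x) =
          ψ V (((smS F).map f).appTop t) ((MR L m a).map f.op x)) ∧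
      (∀ I : Ideal R, I.map C ≤ (I.map H).radical → ∀ W t x, x ∈ (Off L m a I).N W →
        ψ W t x ∈ (Off L m a I).N W) ∧
      (∀ (η : R →+* R) (h : η.comp a = a), (mapRingHom η).comp H = H.comp η → ∀ W t x,
        (pu L m η h).app (op W) (ψ W t x) = ψ W t ((pu L m η h).app (op W) x)) ∧
      ((evalRingHom 1).comp H = RingHom.id R → ∀ W x, ψ W 1 x = x) ∧
      ∀ (η : R →+* R) (h : η.comp a = a), (evalRingHom 0).comp H = η → ∀ W x,
        ψ W 0 x = (pu L m η h).app (op W) x := by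
  obtain ⟨A, hA⟩ := exists_act H hH
  refine ⟨fun W t => A.ψ L m W t, fun f t x => A.ψ_nat f t x,
    fun I hI W t x hx => A.ψ_off (fun y hy => ?_) hx,
    fun η h e W t x => A.ψ_push (pHom η h) (pFam_ext ?_ ?_) x,
    fun e W x => A.ψ_eq_self (pFam_ext ?_ ?_) x,
    fun η h e W x => A.ψ_eq_push (pHom η h) (pFam_ext ?_ ?_) x⟩
  · rw [Set.mem_preimage, mem_zSet, ← Scheme.Hom.comp_apply] at hy
    refine mem_zSet.2 fun r hr => (RingB_mem _ _ _).2 ?_
    let k : R[X] →+* geoF y := (ev (geo y)).comp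
      (eval₂RingHom ((pSnd a W).appTop.hom.comp fn) (((pFam a).p.app W).appTop t))
    have h1 : I.map H ≤ RingHom.ker k := Ideal.map_le_iff_le_comap.2 fun r hr => by
      have := (RingB_mem _ _ _).1 (hy hr)
      rw [hA] at this
      exact this
    have h2 := (Ideal.IsPrime.radical_le_iff (RingHom.ker_isPrime k)).2 h1
      (hI (Ideal.mem_map_of_mem C hr))
    rw [RingHom.mem_ker, RingHom.comp_apply, coe_eval₂RingHom, eval₂_C] at h2
    exact h2
  · rw [Category.assoc, Category.assoc, (pHom η h).w, A.w, (pHom η h).w]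
  · rw [Category.assoc, Category.assoc, pHom_pSnd, ← Category.assoc]
    refine RingB_ext fun r => ?_
    have e1 : H (η r) = (H r).map η := (RingHom.congr_fun e r).symm
    rw [RingB_comp, appTop_spm_fn, hA, RingB_comp ((pHom η h).q W), hA, RingB_eval, pHom_pSnd,
      ← RingB_comp, (pHom η h).w, e1, eval₂_map]
    congr 1
    exact RingHom.ext fun x => by
      rw [RingHom.comp_apply, RingHom.comp_apply, RingHom.comp_apply, ← appTop_spm_fn]
      exact (RingB_comp _ _ _).symm
  · rw [A.w, Category.id_comp]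
  · refine RingB_ext fun r => ?_
    have e1 : eval 1 (H r) = r := RingHom.congr_fun e r
    rw [hA, map_one, eval₂_at_one, e1, Category.id_comp]
    rfl
  · rw [A.w, (pHom η h).w]
  · refine RingB_ext fun r => ?_
    have e1 : eval 0 (H r) = η r := RingHom.congr_fun e r
    rw [hA, map_zero, eval₂_at_zero, coeff_zero_eq_eval_zero, e1, pHom_pSnd, RingB_comp,
      appTop_spm_fn]
    rfl

theorem RingA_app (φ : R →+* S) (h : φ.comp a = b) (W : Sm F) :
    (rhoH L m φ h).app (op ((gamS m F).obj W)) = (pu L m φ h).app (op W) :=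
  congrArg (ext1 L) (AddMonoidHom.ext fun c => Corr.comp_graph c (spH φ h))

theorem RingA_mem {Λ : Set (R →+* R)} (W : Sm F)
    (x : (rhoS L m a).obj (op ((gamS m F).obj W))) :
    (∃ y : (redP L m a Λ).obj (op ((gamS m F).obj W)), (jkerι _).app _ y = x) ↔
      x ∈ (Red L m a Λ).N W := by
  refine (mem_range_jkerι _ x).trans (Iff.trans ⟨fun H φ hφ h => ?_, ?_⟩ mem_Red.symm)
  · rw [← RingA_app]
    exact H _ ⟨φ, hφ, h, rfl⟩
  · rintro H _ ⟨φ, hφ, h, rfl⟩
    rw [RingA_app]
    exact H φ hφ h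

/-- The comparison map. -/
def RingA_hom (a : F →+* R) (Λ : Set (R →+* R)) :
    (fgt L m F).obj (redP L m a Λ) ⟶ SubP.sq (Red L m a Λ) (Off L m a ⊥) where
  app W := ModuleCat.ofHom ((Submodule.mkQ _).comp (LinearMap.codRestrict
    ((Red L m a Λ).N W.unop) ((jkerι _).app (op ((gamS m F).obj W.unop))).hom
    fun y => (RingA_mem W.unop _).1 ⟨y, rfl⟩))
  naturality W V f := by
    ext y
    exact congrArg Submodule.Quotient.mk (Subtype.ext
      (congrArg (fun k => (ext1 L k).hom y.1)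
        (AddMonoidHom.ext fun d => Corr.graph_comp ((smV F).map f.unop) d)))

/-- Comparison with the reduced presheaf with transfers. Hint: `gamRhoIso`, `Corr.comp_graph`,
`jkerι`, `mem_range_jkerι`, `psh_isIso`. -/
theorem nonempty_redIso (a : F →+* R) (Λ : Set (R →+* R)) :
    Nonempty ((fgt L m F).obj (redP L m a Λ) ≅ SubP.sq (Red L m a Λ) (Off L m a ⊥)) := by
  have := psh_isIso (RingA_hom (L := L) (m := m) a Λ) fun W =>
    ⟨(injective_iff_map_eq_zero _).2 fun y hy => ?_, fun z => ?_⟩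
  · exact ⟨asIso (RingA_hom a Λ)⟩
  · exact Subtype.ext (mem_off_bot.1 ((SubP.cl_eq_zero
      (hx := (RingA_mem W _).1 ⟨y, rfl⟩)).1 hy))
  · obtain ⟨x, hx, rfl⟩ := SubP.cl_surj z
    obtain ⟨y, rfl⟩ := (RingA_mem W x).2 hx
    exact ⟨y, rfl⟩

end Pool.Agent.KEW
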