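import Pool.Agent.P.MP_6277db_ag.KEW.G.Thick
import Pool.Agent.P.MP_6277db_ag.KEW.G.Red
import Pool.Agent.P.MP_6277db_ag.KEW.L2b.Tens

/-!
KEW, effectivity: subpresheaves and subquotients.
-/

set_option backward.isDefEq.respectTransparency false

noncomputable section

open CategoryTheory Limits AlgebraicGeometry Opposite

namespace Pool.Agent.KEW

variable {C : Type 1} [Category.{0} C] {L : Type 1} [CommRing L]

/-- A subpresheaf. -/
structure SubP (M : PSh C L) where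
  /-- the sections -/
  N : ∀ W : C, Submodule L (M.obj (op W))
  res : ∀ {V W : C} (f : V ⟶ W) {x : M.obj (op W)}, x ∈ N W → M.map f.op x ∈ N V

namespace SubP

variable {M M' : PSh C L}

/-- Everything. -/
def top (M : PSh C L) : SubP M := ⟨fun _ => ⊤, fun _ _ _ => trivial⟩

/-- Zero. -/
def bot (M : PSh C L) : SubP M :=
  ⟨fun _ => ⊥, fun f _ h => by rw [Submodule.mem_bot] at h ⊢; rw [h, map_zero]⟩

/-- Intersection. -/
def inf (A B : SubP M) : SubP M :=
  ⟨fun W => A.N W ⊓ B.N W, fun f _ h => ⟨A.res f h.1, B.res f h.2⟩⟩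

/-- Inclusion. -/
def Le (A B : SubP M) : Prop := ∀ (W : C) (x : M.obj (op W)), x ∈ A.N W → x ∈ B.N W

/-- The sections `y` with `y - φ x ∈ B` for some `x ∈ A`. -/
def imAdd (φ : M ⟶ M') (A : SubP M) (B : SubP M') : SubP M' where
  N W := (A.N W).map (φ.app (op W)).hom ⊔ B.N W
  res {V W} f y h := by
    obtain ⟨_, ⟨x, hx, rfl⟩, b, hb, rfl⟩ := Submodule.mem_sup.1 h
    rw [map_add]
    exact Submodule.add_mem_sup ⟨_, A.res f hx, Site_nat φ f x⟩ (B.res f hb)

theorem mem_imAdd {φ : M ⟶ M'} {A : SubP M} {B : SubP M'} {W : C} {y : M'.obj (op W)} :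
    y ∈ (imAdd φ A B).N W ↔ ∃ x ∈ A.N W, y - φ.app (op W) x ∈ B.N W := by
  refine Submodule.mem_sup.trans ⟨?_, fun ⟨x, hx, h⟩ => ⟨_, ⟨x, hx, rfl⟩, _, h, add_sub_cancel _ _⟩⟩
  rintro ⟨_, ⟨x, hx, rfl⟩, b, hb, rfl⟩
  exact ⟨x, hx, by rwa [add_sub_cancel_left]⟩

/-- The preimage. -/
def comap (φ : M ⟶ M') (B : SubP M') : SubP M where
  N W := (B.N W).comap (φ.app (op W)).hom
  res {V W} f x h := by
    change φ.app (op V) (M.map f.op x) ∈ B.N V
    rw [Site_nat]
    exact B.res f h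

theorem mem_comap {φ : M ⟶ M'} {B : SubP M'} {W : C} {x : M.obj (op W)} :
    x ∈ (comap φ B).N W ↔ φ.app (op W) x ∈ B.N W := Iff.rfl

/-- The sections which lie locally in `P`. -/
def loc (u : C ⥤ Scheme.{0}) (P : SubP M) : SubP M where
  N W :=
    { carrier := {y | ∀ (V : C) (f : V ⟶ W) (v : u.obj V),
        Locally u V v fun V' g => M.map (g ≫ f).op y ∈ P.N V'}
      zero_mem' := fun V f v => Locally.of_forall v (by rw [map_zero]; exact zero_mem _)
      add_mem' := fun {a b} ha hb V f v => (ha V f v).bind fun V' g hg y =>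
        (hb V' (g ≫ f) y).mono fun V'' k hk => by
          rw [map_add, Category.assoc]
          refine add_mem ?_ hk
          rw [Site_res]
          exact P.res k hg
      smul_mem' := fun c a ha V f v => (ha V f v).mono fun V' g hg => by
        rw [map_smul]
        exact Submodule.smul_mem _ c hg }
  res {V W} f y h V' g v := (h V' (g ≫ f) v).mono fun V'' k hk => by
    rwa [← Site_res, Category.assoc]

variable {u : C ⥤ Scheme.{0}}

theorem le_loc (P : SubP M) : P.Le (P.loc u) := fun _ _ h _ f v =>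
  Locally.of_forall v (P.res _ h)

theorem loc_mono {P Q : SubP M} (h : P.Le Q) : (P.loc u).Le (Q.loc u) := fun _ _ hy V f v =>
  (hy V f v).mono fun _ _ hg => h _ _ hg

theorem locally_of_mem_loc {P : SubP M} {W : C} {y : M.obj (op W)} (h : y ∈ (P.loc u).N W)
    (w : u.obj W) : Locally u W w fun V f => M.map f.op y ∈ P.N V :=
  (h W (𝟙 W) w).mono fun _ _ hg => by rwa [Category.comp_id] at hg

theorem le_loc_of_locally {A P : SubP M} (h : ∀ (W : C) (y : M.obj (op W)), y ∈ A.N W →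
    ∀ w : u.obj W, Locally u W w fun V f => M.map f.op y ∈ P.N V) : A.Le (P.loc u) :=
  fun _ y hy V f v => (h V _ (A.res f hy) v).mono fun _ _ hg => by rwa [Site_res]

theorem Le.trans {A B D : SubP M} (h : A.Le B) (h' : B.Le D) : A.Le D :=
  fun W x hx => h' W x (h W x hx)

/-- The joint kernel of a set of endomorphisms. -/
def red (S : Set (M ⟶ M)) : SubP M where
  N W := ⨅ φ : S, LinearMap.ker (φ.1.app (op W)).hom
  res f x h := (Submodule.mem_iInf _).2 fun φ => (Site_nat φ.1 f x).trans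
    ((congrArg (M.map f.op) ((Submodule.mem_iInf _).1 h φ)).trans (map_zero _))

theorem mem_red {S : Set (M ⟶ M)} {W : C} {x : M.obj (op W)} :
    x ∈ (red S).N W ↔ ∀ φ ∈ S, φ.app (op W) x = 0 :=
  (Submodule.mem_iInf _).trans ⟨fun h φ hφ => h ⟨φ, hφ⟩, fun h φ => h φ.1 φ.2⟩

/-- Projection to the joint kernel of finitely many commuting idempotents. -/
theorem exists_red {S : Set (M ⟶ M)} (hS : S.Finite) (h1 : ∀ φ ∈ S, φ ≫ φ = φ)
    (h2 : ∀ φ ∈ S, ∀ ψ ∈ S, φ ≫ ψ = ψ ≫ φ) {W : C} (Q : M.obj (op W) → Prop) {x : M.obj (op W)}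
    (hx : Q x) (hQ : ∀ φ ∈ S, ∀ z, Q z → Q (z - φ.app (op W) z)) :
    ∃ z ∈ (red S).N W, Q z := by
  induction S, hS using Set.Finite.induction_on with
  | empty => exact ⟨x, mem_red.2 fun _ h => h.elim, hx⟩
  | @insert φ S _ _ ih =>
    obtain ⟨z, hz, hq⟩ := ih (fun ψ h => h1 ψ (Or.inr h))
      (fun ψ h χ h' => h2 ψ (Or.inr h) χ (Or.inr h')) fun ψ h => hQ ψ (Or.inr h)
    refine ⟨z - φ.app (op W) z, mem_red.2 fun ψ hψ => ?_, hQ φ (Or.inl rfl) z hq⟩
    have e : ψ.app (op W) (φ.app (op W) z) = φ.app (op W) (ψ.app (op W) z) :=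
      congrArg (fun θ : M ⟶ M => θ.app (op W) z) (h2 φ (Or.inl rfl) ψ hψ)
    rw [map_sub]
    rcases hψ with rfl | hψ
    · exact sub_eq_zero.2 (congrArg (fun θ : M ⟶ M => θ.app (op W) z) (h1 ψ (Or.inl rfl))).symm
    · rw [e, mem_red.1 hz ψ hψ, map_zero, sub_zero]

/-- The subquotient `A / (A ∩ B)`. -/
def sq (A B : SubP M) : PSh C L where
  obj W := ModuleCat.of L (A.N W.unop ⧸ (B.N W.unop).comap (A.N W.unop).subtype)
  map f := ModuleCat.ofHom (Submodule.mapQ _ _ ((M.map f).hom.restrict fun _ h => A.res f.unop h)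
    fun _ h => B.res f.unop h)
  map_id W := by
    ext a
    exact congrArg Submodule.Quotient.mk (Subtype.ext (Site_id M a.1))
  map_comp f g := by
    ext a
    exact congrArg Submodule.Quotient.mk (Subtype.ext (Site_res M g.unop f.unop a.1))

variable {A : SubP M} (B : SubP M) {A' B' : SubP M'}

/-- The class of a section. -/
def cl {W : C} (x : M.obj (op W)) (hx : x ∈ A.N W) : (sq A B).obj (op W) :=
  Submodule.Quotient.mk ⟨x, hx⟩

variable {B}

theorem cl_surj {W : C} (z : (sq A B).obj (op W)) : ∃ x hx, cl B x hx = z := by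
  obtain ⟨⟨x, hx⟩, rfl⟩ := Submodule.Quotient.mk_surjective _ z
  exact ⟨x, hx, rfl⟩

theorem cl_eq_zero {W : C} {x : M.obj (op W)} {hx : x ∈ A.N W} : cl B x hx = 0 ↔ x ∈ B.N W :=
  Submodule.Quotient.mk_eq_zero _

theorem cl_eq_cl {W : C} {x y : M.obj (op W)} {hx : x ∈ A.N W} {hy : y ∈ A.N W} :
    cl B x hx = cl B y hy ↔ x - y ∈ B.N W :=
  Submodule.Quotient.eq _

theorem map_cl {V W : C} (f : V ⟶ W) (x : M.obj (op W)) (hx : x ∈ A.N W) :
    (sq A B).map f.op (cl B x hx) = cl B (M.map f.op x) (A.res f hx) := rfl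

/-- The map of subquotients induced by a map of presheaves. -/
def sqMap (φ : M ⟶ M') (hA : A.Le (comap φ A')) (hB : (A.inf B).Le (comap φ B')) :
    sq A B ⟶ sq A' B' where
  app W := ModuleCat.ofHom (Submodule.mapQ _ _
    ((φ.app W).hom.restrict fun x h => hA W.unop x h) fun x h => hB W.unop x.1 ⟨x.2, h⟩)
  naturality W V f := by
    ext z
    obtain ⟨x, hx, rfl⟩ := cl_surj z
    exact congrArg Submodule.Quotient.mk (Subtype.ext (Site_nat φ f.unop x))

theorem sqMap_cl (φ : M ⟶ M') (hA : A.Le (comap φ A')) (hB : (A.inf B).Le (comap φ B')) {W : C}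
    (x : M.obj (op W)) (hx : x ∈ A.N W) :
    (sqMap φ hA hB).app (op W) (cl B x hx) = cl B' (φ.app (op W) x) (hA W x hx) := rfl

theorem wg_sqMap (φ : M ⟶ M') (hA : A.Le (comap φ A')) (hB : (A.inf B).Le (comap φ B'))
    (hi : (A.inf (comap φ B')).Le (B.loc u)) (hs : A'.Le ((imAdd φ A B').loc u)) :
    WG (NGen u) ((sgl 0).map (sqMap φ hA hB)) := by
  refine WG.of_nis ((wg_nis_sgl_iff _ 0).2 ⟨fun W z hz w => ?_, fun W z w => ?_⟩)
  · obtain ⟨x, hx, rfl⟩ := cl_surj z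
    rw [sqMap_cl, cl_eq_zero] at hz
    exact (locally_of_mem_loc (hi W x ⟨hx, hz⟩) w).mono fun V f h => cl_eq_zero.2 h
  · obtain ⟨y, hy, rfl⟩ := cl_surj z
    refine (locally_of_mem_loc (hs W y hy) w).mono fun V f h => ?_
    obtain ⟨x, hx, h⟩ := mem_imAdd.1 h
    exact ⟨cl B x hx, (cl_eq_cl.2 h).symm⟩

/-- The short exact sequence of two nested subpresheaves. -/
theorem exists_ses (A : SubP M) {B B' : SubP M} (h : B.Le B') :
    ∃ (f : sq (A.inf B') B ⟶ sq A B) (g : sq A B ⟶ sq A B') (w : f ≫ g = 0),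
      (ShortComplex.mk f g w).ShortExact := by
  refine ⟨sqMap (𝟙 M) (fun _ _ hx => hx.1) fun _ _ hx => hx.2,
    sqMap (𝟙 M) (fun _ _ hx => hx) fun W x hx => h W x hx.2, ?_, ?_⟩
  · ext W z
    obtain ⟨x, hx, rfl⟩ := cl_surj (W := W.unop) z
    exact cl_eq_zero.2 hx.2
  · refine ShortComplex.ShortExact.mk' (psh_exact _ fun W z hz => ?_)
      (psh_mono _ fun W => (injective_iff_map_eq_zero _).2 fun z hz => ?_)
      (psh_epi _ fun W z => ?_)
    · obtain ⟨x, hx, rfl⟩ := cl_surj z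
      exact ⟨cl B x ⟨hx, cl_eq_zero.1 hz⟩, rfl⟩
    · obtain ⟨x, hx, rfl⟩ := cl_surj z
      exact cl_eq_zero.2 (cl_eq_zero.1 hz)
    · obtain ⟨x, hx, rfl⟩ := cl_surj z
      exact ⟨cl B x hx, rfl⟩

theorem isZero_sq (h : A.Le B) : IsZero (sq A B) := by
  refine (Functor.isZero_iff _).2 fun W => ?_
  have : Subsingleton ((sq A B).obj W) := ⟨fun a b => by
    obtain ⟨x, hx, rfl⟩ := cl_surj (W := W.unop) a
    obtain ⟨y, hy, rfl⟩ := cl_surj (W := W.unop) b
    exact cl_eq_cl.2 (h _ _ (sub_mem hx hy))⟩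
  exact ModuleCat.isZero_of_subsingleton _

/-- A subquotient with a contraction is acyclic. -/
theorem loc_sq (ψ : ∀ W : C, Γ(u.obj W, ⊤) → (M.obj (op W) →ₗ[L] M.obj (op W)))
    (nat : ∀ {V W : C} (f : V ⟶ W) (a : Γ(u.obj W, ⊤)) (x : M.obj (op W)),
      M.map f.op (ψ W a x) = ψ V ((u.map f).appTop a) (M.map f.op x))
    (hA : ∀ W a x, x ∈ A.N W → ψ W a x ∈ A.N W) (hB : ∀ W a x, x ∈ B.N W → ψ W a x ∈ B.N W)
    (h1 : ∀ W x, ψ W 1 x = x) (h0 : ∀ W x, x ∈ A.N W → ψ W 0 x ∈ B.N W) :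
    Loc (NGen u) ((sgl 0).obj (sq A B)) := by
  refine loc_sgl_of_contraction _
    ⟨fun W a => Submodule.mapQ _ _ ((ψ W a).restrict (hA W a)) fun x h => hB W a x.1 h,
      fun f a z => ?_, fun W a z ha => ?_⟩ fun W z => ?_
  · obtain ⟨x, hx, rfl⟩ := cl_surj z
    exact congrArg Submodule.Quotient.mk (Subtype.ext (nat f a x))
  · obtain ⟨x, hx, rfl⟩ := cl_surj z
    obtain rfl : a = 0 := ha
    exact cl_eq_zero (hx := hA W 0 x hx) |>.2 (h0 W x hx)
  · obtain ⟨x, hx, rfl⟩ := cl_surj z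
    exact congrArg Submodule.Quotient.mk (Subtype.ext (h1 W x))

end SubP

end Pool.Agent.KEW
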