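import Pool.Agent.P.MP_6277db_ag.KEW.Eff.Fam

/-!
KEW, effectivity: comparison maps between presheaves of cycles.
-/

set_option backward.isDefEq.respectTransparency false

noncomputable section

open CategoryTheory Limits AlgebraicGeometry Opposite TensorProduct Function

namespace Pool.Agent.KEW

variable {C C' : Type 1} [Category.{0} C] [Category.{0} C'] {u : C ⥤ Scheme.{0}}
  {u' : C' ⥤ Scheme.{0}} {L : Type 1} [CommRing L] {m : ℕ}

theorem mem_tsub_ker {A B : Type} [AddCommGroup A] [AddCommGroup B] {k : A →+ B}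
    (hk : Surjective k) {N : AddSubgroup A} (hN : ∀ a, k a = 0 ↔ a ∈ N)
    {x : ModuleCat.of L (L ⊗[ℤ] A)} : x ∈ tsub L N ↔ (ext1 L k).hom x = 0 := by
  have h1 : Function.Exact N.subtype.toIntLinearMap k.toIntLinearMap :=
    fun b => (hN b).trans ⟨fun h => ⟨⟨b, h⟩, rfl⟩, fun ⟨c, h⟩ => h ▸ c.2⟩
  exact (lTensor_exact L h1 hk x).symm

theorem ext1_surjective {A B : Type} [AddCommGroup A] [AddCommGroup B] {k : A →+ B}
    (hk : Surjective k) : Surjective (ext1 L k).hom :=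
  LinearMap.lTensor_surjective L (g := k.toIntLinearMap) hk

theorem ext1_bijective {A B : Type} [AddCommGroup A] [AddCommGroup B] {k : A →+ B}
    (hk : Bijective k) : Bijective (ext1 L k).hom :=
  ((LinearEquiv.ofBijective k.toIntLinearMap hk).lTensor L).bijective

/-- The class of a cycle when the first set is empty. -/
def CycPair.mk0 (m : ℕ) {X W : Scheme.{0}} (p : X ⟶ W) [IsSeparated p] {T₁ : Set X} (h : T₁ = ∅)
    (T₂ : Set X) : Cyc m p →+ CycPair m p T₁ T₂ :=
  (QuotientAddGroup.mk' _).comp ((AddMonoidHom.id _).codRestrict (CycOff m p T₁) fun a => by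
    change Disjoint _ T₁
    rw [h]
    exact Set.disjoint_empty _)

theorem CycPair.pull_bijective {X W X' W' : Scheme.{0}} {f : X' ⟶ X} {p' : X' ⟶ W'} {p : X ⟶ W}
    {g : W' ⟶ W} [IsSeparated p] [IsSeparated p'] [LocallyOfFiniteType p] (H : IsPullback f p' p g)
    [IsIntegralHom g] [AlgebraicGeometry.Surjective g] [UniversallyInjective g] {T₁ T₂ : Set X}
    {T₁' T₂' : Set X'} (h₁ : Set.MapsTo f T₁' T₁) (h₂ : Set.MapsTo f T₂' T₂)
    (e₁ : f ⁻¹' T₁ ⊆ T₁') (e₂ : f ⁻¹' T₂ ⊆ T₂') : Bijective (CycPair.pull m H h₁ h₂) := by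
  have hi : IsIntegralHom f := MorphismProperty.of_isPullback H.flip ‹IsIntegralHom g›
  have hs : AlgebraicGeometry.Surjective f :=
    MorphismProperty.of_isPullback (P := @AlgebraicGeometry.Surjective) H.flip ‹_›
  have key : ∀ (c : Cyc m p) {T : Set X} {T' : Set X'}, f ⁻¹' T ⊆ T' →
      Cyc.pull m H c ∈ CycOff m p' T' → c ∈ CycOff m p T := fun c T T' e hc => by
    refine Set.disjoint_left.2 fun x hx hx' => ?_
    have h1 : closure (support c.1) ⊆ f '' closure (f ⁻¹' support c.1) :=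
      closure_minimal (fun y hy => by
        obtain ⟨z, rfl⟩ := f.surjective y
        exact ⟨z, subset_closure hy, rfl⟩) (f.isClosedMap _ isClosed_closure)
    obtain ⟨z, hz, rfl⟩ := h1 hx
    exact Set.disjoint_left.1 hc hz (e hx')
  refine ⟨(injective_iff_map_eq_zero _).2 fun z hz => ?_, fun z => ?_⟩
  · obtain ⟨c, rfl⟩ := QuotientAddGroup.mk_surjective z
    exact (QuotientAddGroup.eq_zero_iff _).2 (key c.1 e₂ ((QuotientAddGroup.eq_zero_iff
      (⟨Cyc.pull m H c.1, CycOff.pull_mem m H h₁ c.2⟩ : CycOff m p' T₁')).1 hz))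
  · obtain ⟨d, rfl⟩ := QuotientAddGroup.mk_surjective z
    obtain ⟨c, hc⟩ := (Cyc.pull_bijective (m := m) H).2 d.1
    exact ⟨QuotientAddGroup.mk ⟨c, key c e₁ (hc ▸ d.2)⟩, congrArg QuotientAddGroup.mk (Subtype.ext hc)⟩

namespace CFam

variable {F : CFam u} {F' : CFam u'}

/-- The subquotient description of the motive of a pair. -/
theorem nonempty_sqIso {A : SubP (F.cy L m)} (hA : ∀ c x, x ∈ A.N c) {T₁ : F.Sets}
    (h : ∀ c, T₁.T c = ∅) (T : F.Sets) : Nonempty (SubP.sq A (off L m T) ≅ F.mot L m T₁ T) := by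
  have hs : ∀ c, Surjective (CycPair.mk0 m (F.p.app c) (h c) (T.T c)) := fun c z => by
    obtain ⟨d, rfl⟩ := QuotientAddGroup.mk_surjective z
    exact ⟨d.1, rfl⟩
  have hk : ∀ c (x : (F.cy L m).obj (op c)), x ∈ (off L m T).N c ↔
      (ext1 L (CycPair.mk0 m (F.p.app c) (h c) (T.T c))).hom x = 0 := fun c x =>
    mem_tsub_ker (N := CycOff m _ (T.T c)) (hs c) fun a =>
      QuotientAddGroup.eq_zero_iff (G := CycOff m _ (T₁.T c)) _
  let φ : SubP.sq A (off L m T) ⟶ F.mot L m T₁ T :=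
    { app := fun c => ModuleCat.ofHom (Submodule.liftQ _
        ((ext1 L (CycPair.mk0 m (F.p.app c.unop) (h _) (T.T _))).hom.comp (A.N c.unop).subtype)
        fun x hx => (hk _ _).1 hx)
      naturality := fun c c' f => by
        ext z
        obtain ⟨x, hx, rfl⟩ := SubP.cl_surj (W := c.unop) z
        exact TrLB_sq L (f := Cyc.pull m (F.pb f.unop))
          (g := CycPair.mk0 m (F.p.app c'.unop) (h _) (T.T _))
          (f' := CycPair.mk0 m (F.p.app c.unop) (h _) (T.T _))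
          (g' := CycPair.pull m (F.pb f.unop) (T₁.maps f.unop) (T.maps f.unop)) (fun _ => rfl) x }
  have : IsIso φ := psh_isIso φ fun c => ⟨(injective_iff_map_eq_zero _).2 fun z hz => by
      obtain ⟨x, hx, rfl⟩ := SubP.cl_surj z
      exact SubP.cl_eq_zero.2 ((hk c x).2 hz), fun z => by
      obtain ⟨x, rfl⟩ := ext1_surjective (hs c) z
      exact ⟨SubP.cl _ x (hA c x), rfl⟩⟩
  exact ⟨asIso φ⟩

/-- Base change of motives of pairs along a functor of sites. -/
theorem exists_bc (Φ : C ⥤ C') {t : ∀ c, F'.X.obj (Φ.obj c) ⟶ F.X.obj c}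
    {b : ∀ c, u'.obj (Φ.obj c) ⟶ u.obj c}
    (H : ∀ c, IsPullback (t c) (F'.p.app (Φ.obj c)) (F.p.app c) (b c))
    (nat : ∀ {c' c : C} (φ : c' ⟶ c), F'.X.map (Φ.map φ) ≫ t c = t c' ≫ F.X.map φ)
    {T₁ T₂ : F.Sets} {T₁' T₂' : F'.Sets} (h₁ : ∀ c, Set.MapsTo (t c) (T₁'.T _) (T₁.T c))
    (h₂ : ∀ c, Set.MapsTo (t c) (T₂'.T _) (T₂.T c)) :
    ∃ ψ : F.mot L m T₁ T₂ ⟶ (rs L Φ).obj (F'.mot L m T₁' T₂'),
      ∀ c, ψ.app (op c) = ext1 L (CycPair.pull m (H c) (h₁ c) (h₂ c)) := by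
  refine ⟨⟨fun c => ext1 L (CycPair.pull m (H c.unop) (h₁ _) (h₂ _)), fun c c' f => ?_⟩,
    fun _ => rfl⟩
  refine ModuleCat.hom_ext (LinearMap.ext fun x => TrLB_sq L
    (f := CycPair.pull m (F.pb f.unop) (T₁.maps f.unop) (T₂.maps f.unop))
    (g' := CycPair.pull m (F'.pb (Φ.map f.unop)) (T₁'.maps _) (T₂'.maps _)) (fun z => ?_) x)
  obtain ⟨d, rfl⟩ := QuotientAddGroup.mk_surjective z
  refine congrArg QuotientAddGroup.mk (Subtype.ext (Subtype.ext (funext fun y => ?_)))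
  change d.1.1 (F.X.map f.unop (t _ y)) = d.1.1 (t _ (F'.X.map (Φ.map f.unop) y))
  rw [← Scheme.Hom.comp_apply, ← Scheme.Hom.comp_apply, nat]

/-- If every point is either locally in the sieve or has its fibre inside `T₁`, the motive is
locally concentrated on the sieve. -/
theorem locSurj_cut (hu : IsSite u) (S : Siev C) (T₁ T₂ : F.Sets)
    (h : ∀ (c : C) (w : u.obj c), Locally u c w (fun V _ => S.p V) ∨ F.p.app c ⁻¹' {w} ⊆ T₁.T c) :
    LocSurj u ((cutι L S).app (F.mot L m T₁ T₂)) := by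
  refine fun c z => Site_im_locally ?_
  induction z using TensorProduct.induction_on with
  | zero => exact zero_mem _
  | add x y hx hy => exact add_mem hx hy
  | tmul l a =>
    intro V f v
    rcases h V v with h | h
    · exact h.mono fun W g hW => cutι_surjective _ hW _
    obtain ⟨d, rfl⟩ := QuotientAddGroup.mk_surjective a
    have hd := CycOff.pull_mem m (F.pb f) (T₁.maps f) d.2
    obtain ⟨O, hO, hv, hO'⟩ := (Cyc.pull m (F.pb f) d.1).2.2.2.closure.exists_shrink isClosed_closure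
      isOpen_empty (w := v) fun x hx => Set.disjoint_left.1 hd hx.1 (h hx.2)
    obtain ⟨W, g, hg, hr⟩ := hu.exists_open V ⟨O, hO⟩
    obtain ⟨y, rfl⟩ : v ∈ Set.range (u.map g) := hr ▸ hv
    refine ⟨W, g, y, IsNbhd.of_isOpenImmersion g y, 0, (map_zero _).trans ?_⟩
    have e : CycPair.pull m (F.pb (g ≫ f)) (T₁.maps _) (T₂.maps _) (QuotientAddGroup.mk d) = 0 := by
      refine congrArg QuotientAddGroup.mk (Subtype.ext (Subtype.ext (funext fun x => ?_)))
      change d.1.1 (F.X.map (g ≫ f) x) = 0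
      rw [F.X.map_comp, Scheme.Hom.comp_apply]
      by_contra hx
      refine hO' (a := F.X.map g x) ⟨subset_closure hx, ?_⟩
      rw [Set.mem_preimage, ← Scheme.Hom.comp_apply, (F.pb g).w, Scheme.Hom.comp_apply]
      exact (hr.le ⟨_, rfl⟩ :)
    exact ((congrArg (fun a => l ⊗ₜ[ℤ] a) e).trans (tmul_zero _ _)).symm

end CFam

end Pool.Agent.KEW
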