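import Pool.Agent.P.MP_6277db_ag.KEW.Eff.Main
import Pool.Agent.P.MP_6277db_ag.KEW.Eff.Trans0
import Pool.Agent.P.MP_6277db_ag.KEW.L8b.Rad
import Pool.Agent.P.MP_6277db_ag.KEW.L7.Br4

/-!
KEW, effectivity: transport from the perfect closure of the generic fibre to the base.
-/

set_option backward.isDefEq.respectTransparency false

noncomputable section

open CategoryTheory Limits AlgebraicGeometry Opposite Function

namespace Pool.Agent.KEW

open _root_.KEW

variable {A F : Type} [CommRing A] [Field F] {π : A} {f : A →+* F}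

theorem Trans_pb {W X Y Z T : Scheme.{0}} {a : W ⟶ X} {b : W ⟶ Y} {c : X ⟶ Z} {d : Y ⟶ Z}
    (j : Z ⟶ T) [Mono j] (h : IsPullback a b (c ≫ j) (d ≫ j)) : IsPullback a b c d :=
  ⟨⟨by rw [← cancel_mono j, Category.assoc, Category.assoc, h.w]⟩,
    ⟨PullbackCone.IsLimit.mk _ (fun s => h.lift s.fst s.snd (by
        rw [← Category.assoc, ← Category.assoc, s.condition]))
      (fun _ => h.lift_fst _ _ _) (fun _ => h.lift_snd _ _ _) fun _ _ h1 h2 =>
        h.hom_ext (h1.trans (h.lift_fst _ _ _).symm) (h2.trans (h.lift_snd _ _ _).symm)⟩⟩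

theorem Trans_mem_basicOpen (x : Spec (.of A)) (a : A) :
    x ∈ (Spec (.of A)).basicOpen (fn a) ↔ a ∉ (x : PrimeSpectrum A).asIdeal := by
  rw [fn, basicOpen_eq_of_affine (R := .of A) a]
  rfl

theorem Trans_mem_iff (W : Sm A) (w : (smS A).obj W) (a : A) :
    w ∈ ((smS A).obj W).basicOpen (st W a) ↔
      a ∉ (((smV A).obj W).hom w : PrimeSpectrum A).asIdeal := by
  rw [← Trans_mem_basicOpen]
  exact (congrArg (fun U : ((smS A).obj W).Opens => w ∈ U)
    (Scheme.preimage_basicOpen_top ((smV A).obj W).hom (fn a))).symm.to_iff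

theorem Gen.notMem {W : Sm A} (h : Gen π W) (w : (smS A).obj W) :
    π ∉ (((smV A).obj W).hom w : PrimeSpectrum A).asIdeal := by
  rw [← Trans_mem_iff, Scheme.basicOpen_of_isUnit _ h]
  trivial

/-- Over the generic fibre the base change is radicial. -/
theorem radicial_bcπ (hf : RadBC π f) {W : Sm A} (hW : Gen π W) :
    IsIntegralHom (bcπ f W) ∧ AlgebraicGeometry.Surjective (bcπ f W) ∧
      UniversallyInjective (bcπ f W) := by
  let K := Localization.Away π
  let f' : K →+* F := IsLocalization.Away.lift π (Ne.isUnit hf.ne)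
  have e : f'.comp (algebraMap A K) = f := IsLocalization.Away.lift_comp π _
  obtain ⟨p, hp, hF⟩ := hf.insep
  have hpow : ∀ y : F, ∃ (k : ℕ) (z : K), f' z = y ^ p ^ k := fun y => by
    obtain ⟨k, N, a, ha⟩ := hF y
    refine ⟨k, algebraMap A K a * IsLocalization.Away.invSelf π ^ N, ?_⟩
    have h1 : f π * f' (IsLocalization.Away.invSelf π) = 1 := by
      rw [← e, RingHom.comp_apply, ← map_mul, IsLocalization.Away.mul_invSelf, map_one]
    rw [map_mul, map_pow, ← RingHom.comp_apply, e, ← ha, mul_assoc, ← mul_pow, h1, one_pow, mul_one]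
  have hint : f'.IsIntegral := fun y => by
    obtain ⟨k, z, hz⟩ := hpow y
    refine ⟨Polynomial.X ^ p ^ k - Polynomial.C z,
      Polynomial.monic_X_pow_sub_C z (expChar_pow_pos F p k).ne', ?_⟩
    simp [hz]
  have hinj : Injective f' := (IsLocalization.lift_injective_iff _).2 fun x y =>
    ⟨fun h => by simpa [← e] using congrArg f' h, fun h => congrArg _ (hf.inj h)⟩
  have : IsOpenImmersion (spm (algebraMap A K)) := IsOpenImmersion.of_isLocalization π
  have hr : Set.range ((smV A).obj W).hom ⊆ Set.range (spm (algebraMap A K)) := by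
    rintro _ ⟨w, rfl⟩
    have := PrimeSpectrum.localization_away_comap_range K π
    exact this.ge (hW.notMem w)
  have H : IsPullback (bcπ f W) ((smV F).obj ((bcFun f).obj W)).hom
      (IsOpenImmersion.lift (spm (algebraMap A K)) _ hr) (spm f') :=
    Trans_pb (spm (algebraMap A K)) (by
      rw [IsOpenImmersion.lift_fac, spm_comp, e]
      exact bc_isPullback f W)
  suffices h : ∀ (Om : Type) [Field Om],
      Injective fun g : Spec (.of Om) ⟶ Spec (.of F) => g ≫ spm f' from
    ⟨MorphismProperty.of_isPullback H.flip (IsIntegralHom.SpecMap_iff.2 hint),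
      MorphismProperty.of_isPullback (P := @AlgebraicGeometry.Surjective) H.flip
        ⟨hint.comap_surjective hinj⟩,
      MorphismProperty.of_isPullback (P := @UniversallyInjective) H.flip
        (((tfae_universallyInjective _).out 0 1).2 h)⟩
  intro Om _ g g' h
  obtain ⟨x, rfl⟩ := spm_surjective g
  obtain ⟨x', rfl⟩ := spm_surjective g'
  have h1 : x.comp f' = x'.comp f' :=
    spm_injective ((spm_comp _ _).symm.trans (h.trans (spm_comp _ _)))
  have : ExpChar Om p := expChar_of_injective_ringHom x.injective p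
  refine congrArg spm (RingHom.ext fun y => ?_)
  obtain ⟨k, z, hz⟩ := hpow y
  refine iterateFrobenius_inj Om p k ?_
  rw [iterateFrobenius_def, iterateFrobenius_def, ← map_pow, ← map_pow, ← hz]
  exact RingHom.congr_fun h1 z

variable (f) (ι : Type)

/-- Affine space over `F` maps to affine space over `A`. -/
def sig : Spec (.of (MvPolynomial ι F)) ⟶ 𝔸(ι; Spec (.of A)) :=
  (AffineSpace.SpecIso ι (.of F)).inv ≫ AffineSpace.map ι (spm f)

theorem isPullback_sig :
    IsPullback (sig f ι) (spm MvPolynomial.C) (𝔸(ι; Spec (.of A)) ↘ Spec (.of A)) (spm f) :=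
  (IsPullback.of_horiz_isIso ⟨(AffineSpace.SpecIso_inv_over (.of F)).trans
    (Category.comp_id _).symm⟩).paste_horiz (AffineSpace.isPullback_map (spm f)) |>.of_iso
    (Iso.refl _) (Iso.refl _) (Iso.refl _) (Iso.refl _) (by simp [sig]) (by simp) (by simp) (by simp)

theorem sig_coord (i : ι) : (sig f ι).appTop (AffineSpace.coord _ i) = fn (MvPolynomial.X i) := by
  rw [sig, Scheme.Hom.comp_appTop, CommRingCat.comp_apply, AffineSpace.map_appTop_coord]
  exact AffineSpace.SpecIso_inv_appTop_coord _ _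

theorem tau_w (W : Sm A) :
    (pSnd MvPolynomial.C ((bcFun f).obj W) ≫ sig f ι) ≫ 𝔸(ι; Spec (.of A)) ↘ Spec (.of A) =
      ((pFam MvPolynomial.C).p.app ((bcFun f).obj W) ≫ bcπ f W) ≫ ((smV A).obj W).hom := by
  rw [Category.assoc, (isPullback_sig f ι).w, ← Category.assoc, ← (isPullback_pSnd _ _).w,
    Category.assoc, Category.assoc, (bc_isPullback f W).w]

/-- The projection from affine space over the base change. -/
def tau (W : Sm A) : (pFam (MvPolynomial.C : F →+* MvPolynomial ι F)).X.obj ((bcFun f).obj W) ⟶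
    (affFam (smS A) ι).X.obj W :=
  (AffineSpace.isPullback_map ((smV A).obj W).hom).lift _ _ (tau_w f ι W)

theorem tau_map (W : Sm A) : tau f ι W ≫ AffineSpace.map ι ((smV A).obj W).hom =
    pSnd MvPolynomial.C ((bcFun f).obj W) ≫ sig f ι := IsPullback.lift_fst _ _ _ _

theorem tau_p (W : Sm A) : tau f ι W ≫ (affFam (smS A) ι).p.app W =
    (pFam MvPolynomial.C).p.app ((bcFun f).obj W) ≫ bcπ f W := IsPullback.lift_snd _ _ _ _

theorem isPullback_tau (W : Sm A) : IsPullback (tau f ι W)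
    ((pFam MvPolynomial.C).p.app ((bcFun f).obj W)) ((affFam (smS A) ι).p.app W) (bcπ f W) := by
  refine IsPullback.of_right ?_ (tau_p f ι W) (AffineSpace.isPullback_map ((smV A).obj W).hom)
  rw [tau_map, (bc_isPullback f W).w]
  exact (isPullback_pSnd _ _).flip.paste_horiz (isPullback_sig f ι)

theorem tau_nat {V W : Sm A} (φ : V ⟶ W) :
    (pFam MvPolynomial.C).X.map ((bcFun f).map φ) ≫ tau f ι W =
      tau f ι V ≫ (affFam (smS A) ι).X.map φ := by
  refine (AffineSpace.isPullback_map ((smV A).obj W).hom).hom_ext ?_ ?_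
  · rw [Category.assoc, tau_map, ← Category.assoc, map_pSnd, ← tau_map, Category.assoc]
    exact congrArg (tau f ι V ≫ ·) ((congrArg (AffineSpace.map ι) (sm_w φ).symm).trans
      (AffineSpace.map_comp _ _))
  · have h1 := tau_p f ι W
    have h2 := tau_p f ι V
    have h3 := ((affFam (smS A) ι).pb φ).w
    have h4 := ((pFam (MvPolynomial.C : F →+* MvPolynomial ι F)).pb ((bcFun f).map φ)).w
    change (_ ≫ _) ≫ (affFam (smS A) ι).p.app W = (_ ≫ _) ≫ (affFam (smS A) ι).p.app W
    rw [Category.assoc, h1, Category.assoc, h3, ← Category.assoc, h4, Category.assoc, bc_map_π,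
      ← Category.assoc, ← h2, Category.assoc]

/-- The ideal of the base change of `Z`. -/
def bcI (Z : Set 𝔸(ι; Spec (.of A))) : Ideal (MvPolynomial ι F) :=
  PrimeSpectrum.vanishingIdeal (sig f ι ⁻¹' Z)

variable {f ι}

theorem bcI_le_iff {Z : Set 𝔸(ι; Spec (.of A))} (hZ : IsClosed Z)
    (x : Spec (.of (MvPolynomial ι F))) :
    bcI f ι Z ≤ (x : PrimeSpectrum _).asIdeal ↔ sig f ι x ∈ Z := by
  have := PrimeSpectrum.zeroLocus_vanishingIdeal_eq_closure (R := MvPolynomial ι F) (sig f ι ⁻¹' Z)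
  rw [(hZ.preimage (sig f ι).continuous).closure_eq] at this
  exact Set.ext_iff.1 this x

theorem zSet_bcI {Z : Set 𝔸(ι; Spec (.of A))} (hZ : IsClosed Z) (W : Sm A) :
    (zSet MvPolynomial.C (bcI f ι Z)).T ((bcFun f).obj W) = tau f ι W ⁻¹' (affSets A ι Z).T W := by
  ext x
  rw [mem_zSet, bcI_le_iff hZ, ← Scheme.Hom.comp_apply, ← tau_map, Scheme.Hom.comp_apply]
  rfl

theorem ev_fromSpecResidueField {X : Scheme.{0}} (z : X) (a : Γ(X, ⊤)) :
    ev (O := X.residueField z) (X.fromSpecResidueField z) a = X.Γevaluation z a := by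
  have h : ev (O := X.presheaf.stalk z) (X.fromSpecStalk z) a = X.presheaf.germ ⊤ z trivial a := by
    have : (X.fromSpecStalk z).appTop ≫ (Scheme.ΓSpecIso (X.presheaf.stalk z)).hom =
        X.presheaf.germ ⊤ z trivial := by
      rw [Scheme.fromSpecStalk_appTop]
      simp
    exact congrArg (fun g => g.hom a) this
  exact (ev_spm_comp (X.residue z).hom (X.fromSpecStalk z) a).trans (congrArg _ h)

/-- Transcendence degrees do not change under a radicial extension of the base. -/
theorem td_of_trLe [IsLocalRing A] (hπ : π ∈ IsLocalRing.maximalIdeal A) (hf : RadBC π f)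
    {Z : Set 𝔸(ι; Spec (.of A))} (hZ : IsClosed Z) {e : ℕ}
    (h : ∀ z ∈ Z, z ∉ affSp A ι → TrLe (𝔸(ι; Spec (.of A)) ↘ Spec (.of A)) z e) :
    TD (MvPolynomial.C : F →+* MvPolynomial ι F) (bcI f ι Z) e := by
  intro K _ x hx y hy hind
  obtain ⟨p, hp, hF⟩ := hf.insep
  have hz : gen (spm x ≫ sig f ι) ∈ Z := by
    rw [gen_comp]
    exact (bcI_le_iff hZ _).1 hx
  have hw : (spm x ≫ sig f ι) ≫ 𝔸(ι; Spec (.of A)) ↘ Spec (.of A) =
      spm ((x.comp MvPolynomial.C).comp f) := by
    rw [Category.assoc, (isPullback_sig f ι).w, ← Category.assoc, spm_comp, spm_comp]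
  have hπ' : x (MvPolynomial.C (f π)) ≠ 0 := (map_ne_zero (x.comp MvPolynomial.C)).2 hf.ne
  have hz' : gen (spm x ≫ sig f ι) ∉ affSp A ι := fun hc => by
    have h1 : gen (spm ((x.comp MvPolynomial.C).comp f)) = IsLocalRing.closedPoint A := by
      rw [← hw, gen_comp]
      exact hc
    have h2 := gen_spm_asIdeal ((x.comp MvPolynomial.C).comp f)
    rw [h1] at h2
    exact hπ' (h2.le hπ)
  obtain ⟨z, hzz⟩ : ∃ z, gen (spm x ≫ sig f ι) = z := ⟨_, rfl⟩
  obtain ⟨α, hα⟩ := TrLB_fac (spm x ≫ sig f ι) _ hzz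
  have hev : ∀ a, α.hom ((𝔸(ι; Spec (.of A))).Γevaluation z a) = ev (spm x ≫ sig f ι) a :=
    fun a => by rw [hα, ← ev_fromSpecResidueField]; exact (ev_spm_comp α.hom _ a).symm
  have hA : ∀ a, α.hom ((𝔸(ι; Spec (.of A))).Γevaluation z
      ((𝔸(ι; Spec (.of A)) ↘ Spec (.of A)).appTop (fn a))) = x (MvPolynomial.C (f a)) :=
    fun a => by rw [hev, ← ev_comp, hw, ev_spm_fn]; rfl
  have hX : ∀ i, α.hom ((𝔸(ι; Spec (.of A))).Γevaluation z (AffineSpace.coord _ i)) =
      x (MvPolynomial.X i) := fun i => by rw [hev, ev_comp, sig_coord, ev_spm_fn]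
  have : ExpChar K p := expChar_of_injective_ringHom (x.comp MvPolynomial.C).injective p
  have hup : ∀ (t : K) (k l : ℕ), t ^ p ^ k ∈ α.hom.fieldRange → t ^ p ^ (k + l) ∈ α.hom.fieldRange :=
    fun t k l ht => by rw [pow_add, pow_mul]; exact pow_mem ht _
  let S : Subfield K :=
    { carrier := {t | ∃ k : ℕ, t ^ p ^ k ∈ α.hom.fieldRange}
      mul_mem' := fun {s t} ⟨k, hk⟩ ⟨l, hl⟩ => ⟨k + l, by
        rw [mul_pow]
        exact mul_mem (hup s k l hk) (add_comm l k ▸ hup t l k hl)⟩
      one_mem' := ⟨0, by simp⟩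
      add_mem' := fun {s t} ⟨k, hk⟩ ⟨l, hl⟩ => ⟨k + l, by
        rw [add_pow_expChar_pow]
        exact add_mem (hup s k l hk) (add_comm l k ▸ hup t l k hl)⟩
      zero_mem' := ⟨0, by simp⟩
      neg_mem' := fun {s} ⟨k, hk⟩ => ⟨k, by
        rw [neg_pow]
        exact mul_mem (pow_mem (neg_mem (one_mem _)) _) hk⟩
      inv_mem' := fun s ⟨k, hk⟩ => ⟨k, by
        rw [inv_pow]
        exact inv_mem hk⟩ }
  have hS : Subfield.closure (Set.range x) ≤ S := by
    refine Subfield.closure_le.2 ?_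
    rintro _ ⟨W, rfl⟩
    induction W using MvPolynomial.induction_on with
    | C c =>
      obtain ⟨k, N, a, ha⟩ := hF c
      refine ⟨k, ?_⟩
      have h1 : x (MvPolynomial.C c) ^ p ^ k =
          x (MvPolynomial.C (f a)) / x (MvPolynomial.C (f π)) ^ N := by
        rw [eq_div_iff (pow_ne_zero N hπ'), ← ha]
        simp
      rw [h1]
      exact div_mem ⟨_, hA a⟩ (pow_mem (RingHom.mem_fieldRange.2 ⟨_, hA π⟩) N)
    | add W W' h1 h2 => rw [map_add]; exact add_mem h1 h2
    | mul_X W i h1 =>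
      have h2 : x (MvPolynomial.X i) ∈ S := ⟨0, _, (hX i).trans (pow_one _).symm⟩
      rw [map_mul]
      exact mul_mem h1 h2
  choose k hk using fun i => hS (hy i)
  choose a ha using fun i => hup (y i) (k i) (∑ j, k j - k i) (hk i)
  obtain ⟨P, hP, hP'⟩ := h z (hzz ▸ hz) (hzz ▸ hz') a
  let _ := (x.comp (MvPolynomial.C : F →+* MvPolynomial ι F)).toAlgebra
  have h1 := (algebraicIndependent_iff.1 hind)
    (MvPolynomial.expand (p ^ ∑ j, k j) (MvPolynomial.map f P)) (by
      rw [MvPolynomial.aeval_expand, MvPolynomial.aeval_def, MvPolynomial.eval₂_map]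
      have h2 := congrArg α.hom hP'
      rw [map_zero, MvPolynomial.eval₂_comp_left] at h2
      refine Eq.trans ?_ h2
      congr 1
      · exact RingHom.ext fun c => (hA c).symm
      · funext i
        rw [Function.comp_apply, ha, Nat.add_sub_cancel' (Finset.single_le_sum
          (fun _ _ => Nat.zero_le _) (Finset.mem_univ i))]
        rfl)
  exact hP (MvPolynomial.map_injective f hf.inj (MvPolynomial.expand_injective
    (expChar_pow_pos F p _) (h1.trans (by simp))))

variable {L : Type 1} [CommRing L] {m : ℕ}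

theorem red_empty {R : Type} [CommRing R] (a : F →+* R) (W : Sm F) (x : (MR L m a).obj (op W)) :
    x ∈ (Red L m a ∅).N W := mem_Red.2 fun _ h => h.elim

/-- The motive with supports in the generic fibre comes from the perfect closure. -/
theorem mz_iff [Finite ι] [IsLocalRing A] [IsNoetherianRing A]
    (hπ : IsLocalRing.maximalIdeal A = Ideal.span {π}) (hf : RadBC π f) {K : Ch (Sm A) L → Prop}
    (hK : Thick (NGen (smS A)) K) {Z : Set 𝔸(ι; Spec (.of A))} (hZ : IsClosed Z) :
    K ((sgl 0).obj (MZ A L m ι Z)) ↔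
      K ((mapC (JJ L f π)).obj (motT L m ⟨_, MvPolynomial.C, ∅, bcI f ι Z⟩)) := by
  have hcl : ∀ (W : Sm A) (w : (smS A).obj W),
      ((smV A).obj W).hom w = IsLocalRing.closedPoint A ↔
        π ∈ (((smV A).obj W).hom w : PrimeSpectrum A).asIdeal := fun W w =>
    ⟨fun h => h ▸ hπ.ge (Ideal.mem_span_singleton_self π), fun h => PrimeSpectrum.ext
      ((IsLocalRing.maximalIdeal.isMaximal A).eq_of_le (PrimeSpectrum.isPrime _).ne_top
        (hπ.le.trans ((Ideal.span_singleton_le_iff_mem _).2 h))).symm⟩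
  have hsp : ∀ (W : Sm A) x, x ∈ (affSets A ι (affSp A ι)).T W ↔
      ((smV A).obj W).hom ((affFam (smS A) ι).p.app W x) = IsLocalRing.closedPoint A :=
    fun W x => (congrArg (· = IsLocalRing.closedPoint A) ((Scheme.Hom.comp_apply _ _ x).symm.trans
      ((congrArg (fun g : _ ⟶ Spec (.of A) => g x) (AffineSpace.map_over ((smV A).obj W).hom)).trans
        (Scheme.Hom.comp_apply _ _ x)))).to_iff
  let T₀ : (pFam (MvPolynomial.C : F →+* MvPolynomial ι F)).Sets := ⟨fun _ => ∅, fun _ _ h => h⟩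
  obtain ⟨e⟩ := CFam.nonempty_sqIso (L := L) (m := m) (red_empty MvPolynomial.C) (T₁ := T₀)
    (fun _ => rfl) (zSet MvPolynomial.C (bcI f ι Z))
  obtain ⟨ψ, hψ⟩ := CFam.exists_bc (L := L) (m := m) (bcFun f) (isPullback_tau f ι) (tau_nat f ι)
    (T₁ := affSets A ι (affSp A ι)) (T₂ := affSets A ι Z) (T₁' := T₀)
    (T₂' := zSet MvPolynomial.C (bcI f ι Z)) (fun _ _ h => h.elim) fun W => (zSet_bcI hZ W).le
  have hb : ∀ W, Gen π W → Bijective (ψ.app (op W)) := fun W hW => by
    obtain ⟨h1, h2, h3⟩ := radicial_bcπ hf hW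
    have : LocallyOfFiniteType ((affFam (smS A) ι).p.app W) :=
      inferInstanceAs (LocallyOfFiniteType (𝔸(ι; (smS A).obj W) ↘ (smS A).obj W))
    rw [hψ]
    exact ext1_bijective (CycPair.pull_bijective _ _ _
      (fun x hx => hW.notMem _ ((hcl W _).1 ((hsp W _).1 hx))) (zSet_bcI hZ W).ge)
  have : IsIso ((cut L (genS π)).map ψ) := psh_isIso _ fun W => by
    by_cases hW : Gen π W
    · exact ⟨fun a b h => Subtype.ext ((hb W hW).1 (congrArg Subtype.val h)), fun b => by
        obtain ⟨a, ha⟩ := (hb W hW).2 b.1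
        exact ⟨⟨a, Or.inl hW⟩, Subtype.ext ha⟩⟩
    · exact ⟨fun a b _ => (cut_eq_zero _ hW a).trans (cut_eq_zero _ hW b).symm,
        fun b => ⟨0, (map_zero _).trans (cut_eq_zero _ hW b).symm⟩⟩
  have h1 : WG (NGen (smS A)) ((sgl 0).map ((cutι L (genS π)).app (MZ A L m ι Z))) :=
    WG.of_nis ((wg_nis_sgl_iff _ 0).2 ⟨LocInj.of_mono _,
      CFam.locSurj_cut (isSite_sm A) _ _ _ fun W w => by
        by_cases hw : π ∈ (((smV A).obj W).hom w : PrimeSpectrum A).asIdeal
        · exact Or.inr fun x hx => (hsp W x).2 (by rw [show _ = w from hx]; exact (hcl W w).2 hw)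
        · exact Or.inl (locally_gen π W w ((Scheme.evaluation_ne_zero_iff_mem_basicOpen _ (U := ⊤) w
            trivial _).2 ((Trans_mem_iff W w π).2 hw)))⟩)
  exact (hK.wg_iff h1).symm.trans (hK.iso_iff ((sgl 0).mapIso (asIso ((cut L (genS π)).map ψ) ≪≫
    (JJ L f π).mapIso e.symm) ≪≫
    ((HomologicalComplex.singleMapHomologicalComplex (JJ L f π) (.up ℤ) 0).app _).symm))

end Pool.Agent.KEW
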